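import Pool.Agent.Lib.MP_bcd198_co.IfG

/-!
# Stream U (hulls, section 6 of the blueprint): definitions

Everything in 6.1 is stated for three permutations `a`, `b`, `c` of a (possibly infinite) set `X`.
`S` (planted faces) is closed under `a`, `b`; `U` is disjoint from `S`, closed under `b`, and closed
under `a` at the points `x` with `c x ∈ S`.
-/

set_option autoImplicit false

namespace MPbcd198.U

open Equiv

theorem kap_pos {p q : ℕ} (hyp : Hyp p q) : 0 < kap p q := by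
  have hp := hyp.hp
  have hq := hyp.hq
  have hk := hyp.hk
  obtain ⟨p', rfl⟩ : ∃ p', p = p' + 2 := ⟨p - 2, by omega⟩
  obtain ⟨q', rfl⟩ : ∃ q', q = q' + 2 := ⟨q - 2, by omega⟩
  simp only [Nat.add_sub_cancel] at hk
  have hk' : (4 : ℝ) < (p' : ℝ) * q' := by exact_mod_cast hk
  unfold kap
  push_cast
  have hp0 : (0 : ℝ) ≤ (p' : ℝ) := Nat.cast_nonneg _
  have hq0 : (0 : ℝ) ≤ (q' : ℝ) := Nat.cast_nonneg _
  have h1 : (1 : ℝ) / 2 - 1 / ((p' : ℝ) + 2) - 1 / ((q' : ℝ) + 2) =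
      ((p' : ℝ) * q' - 4) / (2 * ((p' : ℝ) + 2) * ((q' : ℝ) + 2)) := by
    field_simp
    ring
  rw [h1]
  apply div_pos
  · linarith
  · positivity

variable {X : Type}

/-- the orbit of `x` under `⟨a, b⟩` (the face of `x`) -/
def fc (a b : Perm X) (x : X) : Set X :=
  {y | ∃ g ∈ Subgroup.closure ({a, b} : Set (Perm X)), g x = y}

/-- the admissible sets `U` -/
structure Adm (a b c : Perm X) (S U : Finset X) : Prop where
  dis : ∀ x ∈ U, x ∉ S
  hb : ∀ x ∈ U, b x ∈ U
  ha : ∀ x ∈ U, c x ∈ S → a x ∈ U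
  hv : ∀ V ⊆ U, V.Nonempty → (∀ x ∈ V, b x ∈ V) → ∃ x ∈ V, c x ∉ V

/-- `V` is a union of components of `U` (steps `b`, `a` at points of `P₁`, `c` inside `U ∩ P₂`) -/
structure Comp (a b c : Perm X) (S U V : Finset X) : Prop where
  sub : V ⊆ U
  ne : V.Nonempty
  hb : ∀ x ∈ V, b x ∈ V
  ha : ∀ x ∈ V, c x ∈ S → a x ∈ V
  hc : ∀ x ∈ V, c x ∉ S → c x ∈ U → c x ∈ V

section

variable [DecidableEq X]

/-- `U ∩ P₁` -/
def A1 (c : Perm X) (S U : Finset X) : Finset X := U.filter fun x => c x ∈ S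

/-- `U ∩ P₂` -/
def A2 (c : Perm X) (S U : Finset X) : Finset X := U.filter fun x => c x ∉ S

/-- `Z_U` -/
def Zu (c : Perm X) (S U : Finset X) : Finset X := U.filter fun x => c x ∉ S ∧ c x ∈ U

/-- `W = Z_U ∪ a Z_U`, the flags of the edges crossed by `U` -/
def Wu (a c : Perm X) (S U : Finset X) : Finset X := Zu c S U ∪ (Zu c S U).image a

/-- boundary -/
def bdy (c : Perm X) (S : Finset X) : Finset X := S.filter fun x => c x ∉ S

/-- `e(U)` -/
noncomputable def ee (p : ℕ) (c : Perm X) (S U : Finset X) : ℝ :=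
  (U.card : ℝ) / (2 * p) - ((A2 c S U).card : ℝ) / 2 + ((Zu c S U).card : ℝ) / 4

end

/-- the three permutations of a map, without the vertex relation -/
structure Sys (p : ℕ) (a b c : Perm X) : Prop where
  hp : 3 ≤ p
  pa : IsPM a
  pb : IsPM b
  pc : IsPM c
  ab : Rel p a b
  ac : Rel 2 a c

end MPbcd198.U
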