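import Pool.Agent.Lib.MP_bcd198_co.U.Base

/-!
# JOB U/Conn: a connected graph with `n` vertices has at least `n - 1` edges (in the form needed)

`F` is the type of faces, `f x` the face of the flag `x`, `W` a finite set of flags closed under `a` and `c` (a union of edges `{w, a w, c w, a c w}`), `V` a finite set of
faces. If `V` is connected by the edges of `W` then `|V| ≤ |W| / 4 + 1`.

Proof. For every `n` with `1 ≤ n ≤ |V|` there is `V₁ ⊆ V` with `|V₁| = n` and `4 n ≤ |W₁| + 4`, where `W₁ = {w ∈ W : f w ∈ V₁ ∧ f (c w) ∈ V₁}`.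
`n = 1`: any element. Step: `V₁ ≠ V`, so by `hconn` there is `w ∈ W` with `f w ∈ V₁`, `f (c w) ∉ V₁`. Add `f (c w)` (it is in `V` by `hV` since `c w ∈ W`). The four flags
`w, a w, c w, a (c w)` of `W` (distinct: `hac`) have their two sides in the new `V₁` (`f (a w) = f w`, `c (a w) = a (c w)`) and are not in the old `W₁`
(one of their sides is `f (c w) ∉ V₁`). So `|W₁|` grows by at least 4. Take `n = |V|`.
-/

set_option autoImplicit false

namespace MPbcd198.U

open Equiv

private theorem Conn_step {X F : Type} [DecidableEq X] [DecidableEq F] (a c : X → X)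
    (ha : ∀ x, a x ≠ x ∧ a (a x) = x) (hc : ∀ x, c x ≠ x ∧ c (c x) = x)
    (hac : ∀ x, a (c x) = c (a x) ∧ a x ≠ c x) (f : X → F) (hf : ∀ x, f (a x) = f x)
    (W : Finset X) (hWa : ∀ w ∈ W, a w ∈ W) (hWc : ∀ w ∈ W, c w ∈ W) (V₁ : Finset F)
    (w : X) (hw : w ∈ W) (h1 : f w ∈ V₁) (h2 : f (c w) ∉ V₁) :
    (W.filter fun x => f x ∈ V₁ ∧ f (c x) ∈ V₁).card + 4 ≤
      (W.filter fun x => f x ∈ insert (f (c w)) V₁ ∧ f (c x) ∈ insert (f (c w)) V₁).card := by
  have e1 : f (c (a w)) = f (c w) := by rw [← (hac w).1, hf]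
  have e2 : c (a (c w)) = a w := by rw [(hac w).1, (hc _).2]
  have n1 : w ≠ a w := fun h => (ha w).1 h.symm
  have n2 : w ≠ c w := fun h => (hc w).1 h.symm
  have n3 : w ≠ a (c w) := by
    intro h
    have := congrArg a h
    rw [(ha _).2] at this
    exact (hac w).2 this
  have n4 : a w ≠ c w := (hac w).2
  have n5 : a w ≠ a (c w) := by
    intro h
    have := congrArg a h
    rw [(ha _).2, (ha _).2] at this
    exact n2 this
  have n6 : c w ≠ a (c w) := fun h => (ha (c w)).1 h.symm
  have hE : ({w, a w, c w, a (c w)} : Finset X).card = 4 := by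
    rw [Finset.card_insert_of_notMem, Finset.card_insert_of_notMem, Finset.card_insert_of_notMem,
      Finset.card_singleton]
    · simp only [Finset.mem_singleton]; exact n6
    · simp only [Finset.mem_insert, Finset.mem_singleton]
      rintro (h | h)
      · exact n4 h
      · exact n5 h
    · simp only [Finset.mem_insert, Finset.mem_singleton]
      rintro (h | h | h)
      · exact n1 h
      · exact n2 h
      · exact n3 h
  have hdisj : Disjoint (W.filter fun x => f x ∈ V₁ ∧ f (c x) ∈ V₁)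
      ({w, a w, c w, a (c w)} : Finset X) := by
    rw [Finset.disjoint_left]
    intro x hx hx2
    rw [Finset.mem_filter] at hx
    simp only [Finset.mem_insert, Finset.mem_singleton] at hx2
    rcases hx2 with rfl | rfl | rfl | rfl
    · exact h2 hx.2.2
    · rw [e1] at hx
      exact h2 hx.2.2
    · exact h2 hx.2.1
    · rw [hf (c w)] at hx
      exact h2 hx.2.1
  rw [← hE, ← Finset.card_union_of_disjoint hdisj]
  apply Finset.card_le_card
  intro x hx
  rw [Finset.mem_union] at hx
  rw [Finset.mem_filter]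
  rcases hx with hx | hx
  · rw [Finset.mem_filter] at hx
    exact ⟨hx.1, Finset.mem_insert_of_mem hx.2.1, Finset.mem_insert_of_mem hx.2.2⟩
  · simp only [Finset.mem_insert, Finset.mem_singleton] at hx
    have i1 : f w ∈ insert (f (c w)) V₁ := Finset.mem_insert_of_mem h1
    have i2 : f (c w) ∈ insert (f (c w)) V₁ := Finset.mem_insert_self _ _
    rcases hx with rfl | rfl | rfl | rfl
    · exact ⟨hw, i1, i2⟩
    · refine ⟨hWa _ hw, ?_, ?_⟩
      · rw [hf]; exact i1
      · rw [e1]; exact i2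
    · refine ⟨hWc _ hw, i2, ?_⟩
      rw [(hc _).2]
      exact i1
    · refine ⟨hWa _ (hWc _ hw), ?_, ?_⟩
      · rw [hf]; exact i2
      · rw [e2, hf]; exact i1

theorem conn_count {X F : Type} [DecidableEq X] [DecidableEq F] (a c : X → X)
    (ha : ∀ x, a x ≠ x ∧ a (a x) = x) (hc : ∀ x, c x ≠ x ∧ c (c x) = x)
    (hac : ∀ x, a (c x) = c (a x) ∧ a x ≠ c x) (f : X → F) (hf : ∀ x, f (a x) = f x)
    (W : Finset X) (hWa : ∀ w ∈ W, a w ∈ W) (hWc : ∀ w ∈ W, c w ∈ W) (V : Finset F)
    (hne : V.Nonempty) (hV : ∀ w ∈ W, f w ∈ V)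
    (hconn : ∀ V₁ ⊆ V, V₁.Nonempty → (∀ w ∈ W, f w ∈ V₁ → f (c w) ∈ V₁) → V₁ = V) :
    4 * V.card ≤ W.card + 4 := by
  have key : ∀ n : ℕ, 1 ≤ n → n ≤ V.card → ∃ V₁ ⊆ V, V₁.card = n ∧
      4 * n ≤ (W.filter fun x => f x ∈ V₁ ∧ f (c x) ∈ V₁).card + 4 := by
    intro n hn
    induction n, hn using Nat.le_induction with
    | base =>
      intro _
      obtain ⟨v, hv⟩ := hne
      refine ⟨{v}, Finset.singleton_subset_iff.2 hv, Finset.card_singleton v, ?_⟩
      omega
    | succ n hn ih =>
      intro hn1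
      obtain ⟨V₁, hV1, hcard, hle⟩ := ih (by omega)
      have hne1 : V₁.Nonempty := by
        rw [← Finset.card_pos]
        omega
      have hneq : V₁ ≠ V := by
        rintro rfl
        omega
      have hex : ∃ w ∈ W, f w ∈ V₁ ∧ f (c w) ∉ V₁ := by
        by_contra hcon
        apply hneq
        apply hconn V₁ hV1 hne1
        intro w hw hfw
        by_contra hfc
        exact hcon ⟨w, hw, hfw, hfc⟩
      obtain ⟨w, hw, h1, h2⟩ := hex
      have h3 := Conn_step a c ha hc hac f hf W hWa hWc V₁ w hw h1 h2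
      refine ⟨insert (f (c w)) V₁, ?_, ?_, ?_⟩
      · intro x hx
        rw [Finset.mem_insert] at hx
        rcases hx with rfl | hx
        · exact hV _ (hWc _ hw)
        · exact hV1 hx
      · rw [Finset.card_insert_of_notMem h2, hcard]
      · omega
  obtain ⟨V₁, -, -, hle⟩ := key V.card (Finset.card_pos.2 hne) le_rfl
  have h5 : (W.filter fun x => f x ∈ V₁ ∧ f (c x) ∈ V₁).card ≤ W.card := Finset.card_filter_le _ _
  omega

end MPbcd198.U
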