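import Pool.Agent.Lib.MP_bcd198_co.U.Delta
import Pool.Agent.Lib.MP_bcd198_co.U.Conn

/-!
# JOB U/Cases: connectivity of the faces meeting a minimal `U`

* `conn_W` (4 |FF| ≤ |W| + 4): `conn_count` with `f = fc a b`, `W = Wu`, `V = FF`. `hV`: `Wu_sub`, `mem_TT'`. Connectivity: let `V₁ ⊆ FF` be nonempty and closed under the
  edges of `W`. `V = {x ∈ U : fc x ∈ V₁}` is nonempty and a `Comp`: closed under `b`, under `a` at `P₁`-points (`fc_left`, `fc_right`), and if `x ∈ V`, `c x ∉ S`, `c x ∈ U`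
  then `x ∈ Zu ⊆ Wu`, so `fc (c x) ∈ V₁`. By minimality `V = U`, so `V₁ = FF`.
* `conn_W'` (4 |FF| ≤ |W|): here `U ∩ P₂ = Zu` (`hz`) and `y ∈ Zu`, `a y ∉ Zu`. Let `E = {y, a y, c y, a (c y)}` (4 elements of `W`, closed under `a` and `c`), `W' = W \ E`. It is
  enough that `FF` is connected by `W'` (`conn_count`: `4 |FF| ≤ |W'| + 4 = |W|`). Let `V₁ ⊆ FF` be nonempty and closed under the edges of `W'`. Suppose `V₁ ≠ FF`.
  If the edge `E` does not leave `V₁` (i.e. `fc y ∈ V₁ ↔ fc (c y) ∈ V₁`), then `V₁` is closed under the edges of `W` and `V₁ = FF` as in `conn_W`.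
  Otherwise exactly one of `fc y`, `fc (c y)` is in `V₁`; replacing `y` by `c y` (`c y ∈ Zu` and `a (c y) = c (a y) ∉ Zu` because `Zu` is closed under `c`) we may
  suppose `fc y ∈ V₁`, `fc (c y) ∉ V₁`. Let `B = {x ∈ U ∩ P₂ : fc x ∈ V₁}`; `|B|` is even by `even_face`. But `B \ {y}` is closed under `c`: let
  `x ∈ B`, `x ≠ y`; `c x ∈ U ∩ P₂` (`hz`, `Zu` closed under `c`). If `x ∉ E` then `x ∈ W'` and `fc (c x) ∈ V₁`, `c x ∈ B`, and `c x ≠ y` as `c y ∈ E`. `x ∈ E` is impossible: `x = a y`: not in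
  `Zu`; `x = c y`: `fc (c y) ∉ V₁`; `x = a (c y) = c (a y)`: then `x ∈ Zu` and `c x = a y ∈ Zu`. So `|B \ {y}|` is even (`even_of_invol`), `|B|` is odd:
  contradiction.
-/

set_option autoImplicit false

namespace MPbcd198.U

open Equiv

variable {X : Type} [DecidableEq X] {p : ℕ} {a b c : Perm X} {S U : Finset X}

private theorem cases_Zu_c (h : Sys p a b c) (hU : Adm a b c S U) {x : X} (hx : x ∈ Zu c S U) :
    c x ∈ Zu c S U := by
  simp only [Zu, Finset.mem_filter] at hx ⊢
  rw [(h.pc x).2]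
  exact ⟨hx.2.2, hU.dis x hx.1, hx.1⟩

private theorem cases_Zu_sub {x : X} (hx : x ∈ Zu c S U) : x ∈ Wu a c S U :=
  Finset.mem_union_left _ hx

private theorem cases_closed (_h : Sys p a b c) (hU : Adm a b c S U)
    (hmin : ∀ V, Comp a b c S U V → V = U) {V₁ : Finset (Set X)} (hsub : V₁ ⊆ FF a b U)
    (hne : V₁.Nonempty) (hcl : ∀ w ∈ Wu a c S U, fc a b w ∈ V₁ → fc a b (c w) ∈ V₁) :
    V₁ = FF a b U := by
  classical
  have hcomp : Comp a b c S U (U.filter fun x => fc a b x ∈ V₁) := by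
    refine ⟨Finset.filter_subset _ _, ?_, ?_, ?_, ?_⟩
    · obtain ⟨f, hf⟩ := hne
      have hf' := hsub hf
      rw [FF, Finset.mem_image] at hf'
      obtain ⟨x, hx, hxf⟩ := hf'
      exact ⟨x, Finset.mem_filter.2 ⟨hx, by rw [hxf]; exact hf⟩⟩
    · intro x hx
      rw [Finset.mem_filter] at hx ⊢
      exact ⟨hU.hb x hx.1, by rw [fc_right]; exact hx.2⟩
    · intro x hx hcx
      rw [Finset.mem_filter] at hx ⊢
      exact ⟨hU.ha x hx.1 hcx, by rw [fc_left]; exact hx.2⟩
    · intro x hx hcx hcU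
      rw [Finset.mem_filter] at hx ⊢
      refine ⟨hcU, hcl x (cases_Zu_sub ?_) hx.2⟩
      rw [Zu, Finset.mem_filter]
      exact ⟨hx.1, hcx, hcU⟩
  have hV := hmin _ hcomp
  refine Finset.Subset.antisymm hsub ?_
  intro f hf
  rw [FF, Finset.mem_image] at hf
  obtain ⟨x, hx, hxf⟩ := hf
  rw [← hV, Finset.mem_filter] at hx
  rw [← hxf]
  exact hx.2

omit [DecidableEq X] in
private theorem cases_FF_ne (hne : U.Nonempty) : (FF a b U).Nonempty := by
  classical
  unfold FF
  exact hne.image _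

theorem conn_W (h : Sys p a b c) (hU : Adm a b c S U) (hne : U.Nonempty)
    (hmin : ∀ V, Comp a b c S U V → V = U) :
    4 * (FF a b U).card ≤ (Wu a c S U).card + 4 := by
  classical
  exact conn_count (⇑a) (⇑c) h.pa h.pc (fun x => comm_ac h.pa h.pc h.ac x) (fc a b) (fun x => fc_left x)
    (Wu a c S U) (Wu_a h) (Wu_c h hU) (FF a b U) (cases_FF_ne hne)
    (fun w hw => (mem_TT' h).1 (Wu_sub h hU w hw).1)
    (fun V₁ hsub hne1 hcl => cases_closed h hU hmin hsub hne1 hcl)

private theorem cases_core (h : Sys p a b c) (hSa : ∀ x ∈ S, a x ∈ S) (hU : Adm a b c S U)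
    (hz : ∀ x ∈ A2 c S U, x ∈ Zu c S U) {y : X} (hy : y ∈ Zu c S U) (hay : a y ∉ Zu c S U)
    {V₁ : Finset (Set X)}
    (hcl : ∀ w ∈ Wu a c S U, w ≠ y → w ≠ a y → w ≠ c y → w ≠ a (c y) → fc a b w ∈ V₁ → fc a b (c w) ∈ V₁)
    (h1 : fc a b y ∈ V₁) (h2 : fc a b (c y) ∉ V₁) : False := by
  classical
  have hev := even_face h hSa hU (fun f => f ∈ V₁)
  obtain ⟨B, hBm, hev'⟩ : ∃ B : Finset X, (∀ x, x ∈ B ↔ x ∈ A2 c S U ∧ fc a b x ∈ V₁) ∧ Even B.card := by
    refine ⟨_, ?_, hev⟩
    intro x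
    simp only [Finset.mem_filter]
  have hyU : y ∈ U ∧ c y ∉ S ∧ c y ∈ U := by
    rw [Zu, Finset.mem_filter] at hy
    exact hy
  have hyB : y ∈ B := by
    rw [hBm, A2, Finset.mem_filter]
    exact ⟨⟨hyU.1, hyU.2.1⟩, h1⟩
  have hclos : ∀ x ∈ B.erase y, c x ∈ B.erase y := by
    intro x hx
    rw [Finset.mem_erase] at hx
    obtain ⟨hxy, hxB⟩ := hx
    rw [hBm] at hxB
    obtain ⟨hxA, hxV⟩ := hxB
    have hxZ := hz x hxA
    have hcxZ := cases_Zu_c h hU hxZ
    have e1 : x ≠ a y := fun e => hay (e ▸ hxZ)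
    have e2 : x ≠ c y := fun e => h2 (e ▸ hxV)
    have e3 : x ≠ a (c y) := by
      intro e
      apply hay
      have e4 : c x = a y := by
        rw [e, ← (comm_ac h.pa h.pc h.ac (c y)).1, (h.pc y).2]
      rw [← e4]
      exact hcxZ
    rw [Finset.mem_erase]
    refine ⟨?_, ?_⟩
    · intro e
      apply e2
      rw [← e, (h.pc x).2]
    · rw [hBm]
      refine ⟨?_, hcl x (cases_Zu_sub hxZ) hxy e1 e2 e3 hxV⟩
      rw [A2, Finset.mem_filter]
      rw [Zu, Finset.mem_filter] at hcxZ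
      exact ⟨hcxZ.1, hcxZ.2.1⟩
  have hev2 : Even (B.erase y).card :=
    even_of_invol c hclos (fun x _ => (h.pc x).2) (fun x _ => (h.pc x).1)
  have hcard : (B.erase y).card + 1 = B.card := Finset.card_erase_add_one hyB
  rw [← hcard] at hev'
  obtain ⟨m, hm⟩ := hev'
  obtain ⟨k, hk⟩ := hev2
  omega

theorem conn_W' (h : Sys p a b c) (hSa : ∀ x ∈ S, a x ∈ S) (hU : Adm a b c S U)
    (hne : U.Nonempty) (hmin : ∀ V, Comp a b c S U V → V = U)
    (hz : ∀ x ∈ A2 c S U, x ∈ Zu c S U) {y : X} (hy : y ∈ Zu c S U) (hay : a y ∉ Zu c S U) :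
    4 * (FF a b U).card ≤ (Wu a c S U).card := by
  classical
  have hac := fun x => comm_ac h.pa h.pc h.ac x
  set E : Finset X := {y, a y, c y, a (c y)} with hE
  have memE : ∀ w, w ∈ E ↔ w = y ∨ w = a y ∨ w = c y ∨ w = a (c y) := by
    intro w; simp [hE]
  have hca : c (a y) = a (c y) := ((hac y).1).symm
  have hcac : c (a (c y)) = a y := by
    rw [← (hac (c y)).1, (h.pc y).2]
  have hEa : ∀ w ∈ E, a w ∈ E := by
    intro w hw
    rw [memE] at hw ⊢
    rcases hw with e | e | e | e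
    · rw [e]; exact Or.inr (Or.inl rfl)
    · rw [e, (h.pa y).2]; exact Or.inl rfl
    · rw [e]; exact Or.inr (Or.inr (Or.inr rfl))
    · rw [e, (h.pa (c y)).2]; exact Or.inr (Or.inr (Or.inl rfl))
  have hEc : ∀ w ∈ E, c w ∈ E := by
    intro w hw
    rw [memE] at hw ⊢
    rcases hw with e | e | e | e
    · rw [e]; exact Or.inr (Or.inr (Or.inl rfl))
    · rw [e, hca]; exact Or.inr (Or.inr (Or.inr rfl))
    · rw [e, (h.pc y).2]; exact Or.inl rfl
    · rw [e, hcac]; exact Or.inr (Or.inl rfl)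
  have hyW : y ∈ Wu a c S U := cases_Zu_sub hy
  have hEW : E ⊆ Wu a c S U := by
    intro w hw
    rw [memE] at hw
    rcases hw with e | e | e | e
    · rw [e]; exact hyW
    · rw [e]; exact Wu_a h y hyW
    · rw [e]; exact Wu_c h hU y hyW
    · rw [e]; exact Wu_a h _ (Wu_c h hU y hyW)
  have hEcard : E.card = 4 := by
    have d1 : y ≠ a y := fun e => (h.pa y).1 e.symm
    have d2 : y ≠ c y := fun e => (h.pc y).1 e.symm
    have d3 : y ≠ a (c y) := by
      intro e
      have e' : a y = c y := by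
        have := congrArg a e
        rwa [(h.pa (c y)).2] at this
      exact (hac y).2 e'
    have d4 : a y ≠ c y := (hac y).2
    have d5 : a y ≠ a (c y) := fun e => d2 (a.injective e)
    have d6 : c y ≠ a (c y) := fun e => (h.pa (c y)).1 e.symm
    rw [hE, Finset.card_insert_of_notMem (by simp [d1, d2, d3]), Finset.card_insert_of_notMem (by simp [d4, d5]),
      Finset.card_insert_of_notMem (by simp [d6]), Finset.card_singleton]
  have hWcard : ((Wu a c S U) \ E).card + 4 = (Wu a c S U).card := by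
    rw [← hEcard]
    exact Finset.card_sdiff_add_card_eq_card hEW
  have key : 4 * (FF a b U).card ≤ ((Wu a c S U) \ E).card + 4 := by
    refine conn_count (⇑a) (⇑c) h.pa h.pc hac (fc a b) (fun x => fc_left x)
      ((Wu a c S U) \ E) ?_ ?_ (FF a b U) (cases_FF_ne hne) ?_ ?_
    · intro w hw
      rw [Finset.mem_sdiff] at hw ⊢
      refine ⟨Wu_a h w hw.1, fun hE' => hw.2 ?_⟩
      have := hEa _ hE'
      rwa [(h.pa w).2] at this
    · intro w hw
      rw [Finset.mem_sdiff] at hw ⊢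
      refine ⟨Wu_c h hU w hw.1, fun hE' => hw.2 ?_⟩
      have := hEc _ hE'
      rwa [(h.pc w).2] at this
    · intro w hw
      rw [Finset.mem_sdiff] at hw
      exact (mem_TT' h).1 (Wu_sub h hU w hw.1).1
    · intro V₁ hsub hne1 hcl
      have hcl' : ∀ w ∈ Wu a c S U, w ≠ y → w ≠ a y → w ≠ c y → w ≠ a (c y) →
          fc a b w ∈ V₁ → fc a b (c w) ∈ V₁ := by
        intro w hw n1 n2 n3 n4 hf
        refine hcl w ?_ hf
        rw [Finset.mem_sdiff, memE]
        exact ⟨hw, by tauto⟩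
      by_cases i1 : fc a b y ∈ V₁
      · by_cases i2 : fc a b (c y) ∈ V₁
        · refine cases_closed h hU hmin hsub hne1 ?_
          intro w hw hf
          by_cases hwE : w ∈ E
          · rw [memE] at hwE
            rcases hwE with e | e | e | e
            · rw [e]; exact i2
            · rw [e, hca, fc_left]; exact i2
            · rw [e, (h.pc y).2]; exact i1
            · rw [e, hcac, fc_left]; exact i1
          · exact hcl w (Finset.mem_sdiff.2 ⟨hw, hwE⟩) hf
        · exact (cases_core h hSa hU hz hy hay hcl' i1 i2).elim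
      · by_cases i2 : fc a b (c y) ∈ V₁
        · exfalso
          have hcy : c y ∈ Zu c S U := cases_Zu_c h hU hy
          have hacy : a (c y) ∉ Zu c S U := by
            intro hh
            apply hay
            have := cases_Zu_c h hU hh
            rwa [hcac] at this
          refine cases_core h hSa hU hz hcy hacy (V₁ := V₁) ?_ i2 ?_
          · rw [(h.pc y).2]
            intro w hw n1 n2 n3 n4
            exact hcl' w hw n3 n4 n1 n2
          · rw [(h.pc y).2]; exact i1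
        · refine cases_closed h hU hmin hsub hne1 ?_
          intro w hw hf
          by_cases hwE : w ∈ E
          · exfalso
            rw [memE] at hwE
            rcases hwE with e | e | e | e
            · rw [e] at hf; exact i1 hf
            · rw [e, fc_left] at hf; exact i1 hf
            · rw [e] at hf; exact i2 hf
            · rw [e, fc_left] at hf; exact i2 hf
          · exact hcl w (Finset.mem_sdiff.2 ⟨hw, hwE⟩) hf
  omega

end MPbcd198.U
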