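import Pool.Agent.Lib.MP_bcd198_co.U.Base

/-!
# JOB U/CompS: keep the components meeting `S₀`

`S' = {x ∈ S : ∃ y ∈ S₀, SConn ρ S y x}`.
* `S₀ ⊆ S'` (reflexive), `S' ⊆ S`.
* If `x ∈ S'` then `a x, b x ∈ S` and the path can be prolonged: `FaceSet ρ S'`; if `x ∈ S'` and `c x ∈ S` then `c x ∈ S'`. If `x ∈ S \ S'` then `a x ∈ S`, and `a x ∈ S'` would
  give `x = a (a x) ∈ S'`; the same for `b`; if `c x ∈ S'` then `x = c (c x) ∈ S'`.
* So `bd S' = {x ∈ S' : c x ∉ S}` and `bd (S \ S') = {x ∈ S \ S' : c x ∉ S}`: their cardinalities add up to that of `bd S`.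
* The paths stay in `S'`: induction on `Relation.ReflTransGen` (the path from `y` to `x` in `S`; all its points are in `S'`, by
  `Relation.ReflTransGen.head_induction_on` or by induction from the tail with the strengthened statement `SConn ρ S y x → SConn ρ S' y x`).
-/

set_option autoImplicit false

namespace MPbcd198.U

open Equiv

private theorem CompS_mem_bd {p q : ℕ} {X : Type} {ρ : Tri p q →* Perm X} {S : Finset X} {x : X} :
    x ∈ bd ρ S ↔ x ∈ S ∧ ρ (gen p q 2) x ∉ S := by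
  classical
  unfold bd
  exact Finset.mem_filter

theorem comp_split {p q : ℕ} {X : Type} [DecidableEq X] {ρ : Tri p q →* Perm X}
    (hρ : IsMapHom ρ) {S S₀ : Finset X} (hS : FaceSet ρ S) (h0 : S₀ ⊆ S) :
    ∃ S' : Finset X, S₀ ⊆ S' ∧ S' ⊆ S ∧ FaceSet ρ S' ∧ FaceSet ρ (S \ S') ∧
      (bd ρ S').card + (bd ρ (S \ S')).card = (bd ρ S).card ∧
      ∀ x ∈ S', ∃ y ∈ S₀, SConn ρ S' y x := by
  classical
  obtain ⟨S', hS'⟩ : ∃ S' : Finset X, S' = S.filter (fun x => ∃ y ∈ S₀, SConn ρ S y x) := ⟨_, rfl⟩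
  have mem : ∀ x, x ∈ S' ↔ x ∈ S ∧ ∃ y ∈ S₀, SConn ρ S y x := by
    intro x
    rw [hS']
    exact Finset.mem_filter
  have hsub : S' ⊆ S := fun x hx => ((mem x).1 hx).1
  have h00 : S₀ ⊆ S' := fun x hx => (mem x).2 ⟨h0 hx, x, hx, Relation.ReflTransGen.refl⟩
  have ext : ∀ x ∈ S', ∀ z ∈ S, (z = ρ (gen p q 0) x ∨ z = ρ (gen p q 1) x ∨
      z = ρ (gen p q 2) x) → z ∈ S' := by
    intro x hx z hz h
    obtain ⟨h1, y, hy, h2⟩ := (mem x).1 hx
    exact (mem z).2 ⟨hz, y, hy, Relation.ReflTransGen.tail h2 ⟨h1, hz, h⟩⟩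
  have haa : ∀ x, ρ (gen p q 0) (ρ (gen p q 0) x) = x := fun x => (hρ.pa x).2
  have hbb : ∀ x, ρ (gen p q 1) (ρ (gen p q 1) x) = x := fun x => (hρ.pb x).2
  have hcc : ∀ x, ρ (gen p q 2) (ρ (gen p q 2) x) = x := fun x => (hρ.pc x).2
  refine ⟨S', h00, hsub, ?_, ?_, ?_, ?_⟩
  · intro x hx
    have h1 := hS x (hsub hx)
    exact ⟨ext x hx _ h1.1 (Or.inl rfl), ext x hx _ h1.2 (Or.inr (Or.inl rfl))⟩
  · intro x hx
    obtain ⟨h1, h2⟩ := Finset.mem_sdiff.1 hx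
    have h3 := hS x h1
    refine ⟨Finset.mem_sdiff.2 ⟨h3.1, fun h4 => h2 ?_⟩, Finset.mem_sdiff.2 ⟨h3.2, fun h4 => h2 ?_⟩⟩
    · exact ext _ h4 x h1 (Or.inl (haa x).symm)
    · exact ext _ h4 x h1 (Or.inr (Or.inl (hbb x).symm))
  · rw [← Finset.card_union_of_disjoint]
    · congr 1
      ext x
      rw [Finset.mem_union, CompS_mem_bd, CompS_mem_bd, CompS_mem_bd, Finset.mem_sdiff,
        Finset.mem_sdiff]
      constructor
      · rintro (⟨h1, h2⟩ | ⟨⟨h1, h2⟩, h3⟩)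
        · exact ⟨hsub h1, fun h3 => h2 (ext x h1 _ h3 (Or.inr (Or.inr rfl)))⟩
        · refine ⟨h1, fun h4 => h3 ⟨h4, fun h5 => h2 ?_⟩⟩
          exact ext _ h5 x h1 (Or.inr (Or.inr (hcc x).symm))
      · rintro ⟨h1, h2⟩
        by_cases h3 : x ∈ S'
        · exact Or.inl ⟨h3, fun h4 => h2 (hsub h4)⟩
        · exact Or.inr ⟨⟨h1, h3⟩, fun h4 => h2 h4.1⟩
    · rw [Finset.disjoint_left]
      intro x h1 h2
      rw [CompS_mem_bd] at h1 h2
      exact (Finset.mem_sdiff.1 h2.1).2 h1.1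
  · intro x hx
    obtain ⟨_, y, hy, h2⟩ := (mem x).1 hx
    refine ⟨y, hy, ?_⟩
    have h3 : x ∈ S' ∧ SConn ρ S' y x := by
      clear hx
      induction h2 with
      | refl => exact ⟨h00 hy, Relation.ReflTransGen.refl⟩
      | tail _ h5 ih =>
        obtain ⟨h6, h7, h8⟩ := h5
        obtain ⟨h9, h10⟩ := ih h6
        have h11 := ext _ h9 _ h7 h8
        exact ⟨h11, Relation.ReflTransGen.tail h10 ⟨h9, h11, h8⟩⟩
    exact h3.2

end MPbcd198.U
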