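import Pool.Agent.Lib.MP_bcd198_co.U.Faces

/-!
# JOB U/Delta: change of the boundary, and the set `W`

* `bdy_union`: `T` disjoint from `S`, both arbitrary finsets. Put `σ = |{x ∈ T : c x ∈ S}|`, `τ = |{x ∈ T : c x ∈ T}|`. Then
  `|∂(S ∪ T)| + 2 σ + τ = |∂S| + |T|`: `∂(S ∪ T) = {x ∈ S : c x ∉ S, c x ∉ T} ∪ {x ∈ T : c x ∉ S, c x ∉ T}`;
  `|∂S| = |{x ∈ S : c x ∉ S ∪ T}| + |{x ∈ S : c x ∈ T}|` and `c` maps `{x ∈ S : c x ∈ T}` bijectively to `{x ∈ T : c x ∈ S}`;
  `|T| = σ + τ + |{x ∈ T : c x ∉ S ∪ T}|`.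
* `Wu_a`, `Wu_c`: `W = Z ∪ a Z`; `Z = Zu` is closed under `c` (`c x ∉ S`, `c x ∈ U`; `c (c x) = x ∈ U`, `x ∉ S` by `hU.dis`); `c (a x) = a (c x)`.
* `Wu_sub`: `W ⊆ TT` and `c w ∈ TT` for `w ∈ W`.
* `bdy_TT`: with `T = TT`, `σ ≥ |A1|` (`A1 ⊆ {x ∈ T : c x ∈ S}`) and `τ ≥ |W|`: `|∂(S ∪ T)| + 2 |A1| + |W| ≤ |∂S| + 2 p |FF|`.
* `bdy_even`: `∂S` is closed under `a` if `S` is (`comm_ac`), fixed point free: even cardinality.
-/

set_option autoImplicit false

namespace MPbcd198.U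

open Equiv

variable {X : Type} [DecidableEq X] {p : ℕ} {a b c : Perm X} {S U : Finset X}

theorem bdy_union (hc : IsPM c) {T : Finset X} (hT : ∀ x ∈ T, x ∉ S) :
    (bdy c (S ∪ T)).card + 2 * (T.filter fun x => c x ∈ S).card +
      (T.filter fun x => c x ∈ T).card = (bdy c S).card + T.card := by
  have e1 : (bdy c (S ∪ T)).card = (S.filter fun x => c x ∉ S ∧ c x ∉ T).card +
      (T.filter fun x => c x ∉ S ∧ c x ∉ T).card := by
    rw [← Finset.card_union_of_disjoint]
    · congr 1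
      ext x
      simp only [bdy, Finset.mem_filter, Finset.mem_union, not_or]
      tauto
    · rw [Finset.disjoint_left]
      intro x h1 h2
      exact hT x (Finset.mem_filter.1 h2).1 (Finset.mem_filter.1 h1).1
  have e2 : (bdy c S).card = (S.filter fun x => c x ∈ T).card +
      (S.filter fun x => c x ∉ S ∧ c x ∉ T).card := by
    rw [← Finset.card_union_of_disjoint]
    · congr 1
      ext x
      simp only [bdy, Finset.mem_filter, Finset.mem_union]
      constructor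
      · rintro ⟨h1, h2⟩
        by_cases h3 : c x ∈ T
        · exact Or.inl ⟨h1, h3⟩
        · exact Or.inr ⟨h1, h2, h3⟩
      · rintro (⟨h1, h2⟩ | ⟨h1, h2, -⟩)
        · exact ⟨h1, hT _ h2⟩
        · exact ⟨h1, h2⟩
    · rw [Finset.disjoint_left]
      intro x h1 h2
      exact (Finset.mem_filter.1 h2).2.2 (Finset.mem_filter.1 h1).2
  have e3 : T.card = (T.filter fun x => c x ∈ S).card + ((T.filter fun x => c x ∈ T).card +
      (T.filter fun x => c x ∉ S ∧ c x ∉ T).card) := by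
    rw [← Finset.card_union_of_disjoint, ← Finset.card_union_of_disjoint]
    · congr 1
      ext x
      simp only [Finset.mem_filter, Finset.mem_union]
      tauto
    · rw [Finset.disjoint_left]
      intro x h1 h2
      simp only [Finset.mem_filter, Finset.mem_union] at h1 h2
      rcases h2 with h2 | h2
      · exact hT _ h2.2 h1.2
      · exact h2.2.1 h1.2
    · rw [Finset.disjoint_left]
      intro x h1 h2
      exact (Finset.mem_filter.1 h2).2.2 (Finset.mem_filter.1 h1).2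
  have e4 : (S.filter fun x => c x ∈ T).card = (T.filter fun x => c x ∈ S).card := by
    apply Finset.card_bij (fun x _ => c x)
    · intro x hx
      rw [Finset.mem_filter] at hx ⊢
      rw [(hc x).2]
      exact ⟨hx.2, hx.1⟩
    · intro x _ y _ h
      exact c.injective h
    · intro y hy
      rw [Finset.mem_filter] at hy
      exact ⟨c y, by rw [Finset.mem_filter, (hc y).2]; exact ⟨hy.2, hy.1⟩, (hc y).2⟩
  omega

theorem Wu_a (h : Sys p a b c) : ∀ w ∈ Wu a c S U, a w ∈ Wu a c S U := by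
  intro w hw
  rw [Wu, Finset.mem_union, Finset.mem_image] at hw ⊢
  rcases hw with hw | ⟨z, hz, rfl⟩
  · exact Or.inr ⟨w, hw, rfl⟩
  · rw [(h.pa z).2]
    exact Or.inl hz

private theorem Delta_Zu_c (h : Sys p a b c) (hU : Adm a b c S U) {w : X}
    (hw : w ∈ Zu c S U) : c w ∈ Zu c S U := by
  rw [Zu, Finset.mem_filter] at hw ⊢
  rw [(h.pc w).2]
  exact ⟨hw.2.2, hU.dis w hw.1, hw.1⟩

theorem Wu_c (h : Sys p a b c) (hU : Adm a b c S U) : ∀ w ∈ Wu a c S U, c w ∈ Wu a c S U := by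
  intro w hw
  rw [Wu, Finset.mem_union, Finset.mem_image] at hw ⊢
  rcases hw with hw | ⟨z, hz, rfl⟩
  · exact Or.inl (Delta_Zu_c h hU hw)
  · exact Or.inr ⟨c z, Delta_Zu_c h hU hz, (comm_ac h.pa h.pc h.ac z).1⟩

theorem Wu_sub (h : Sys p a b c) (hU : Adm a b c S U) :
    ∀ w ∈ Wu a c S U, w ∈ TT h U ∧ c w ∈ TT h U := by
  have key : ∀ w ∈ Wu a c S U, w ∈ TT h U := by
    intro w hw
    rw [Wu, Finset.mem_union, Finset.mem_image] at hw
    rcases hw with hw | ⟨z, hz, rfl⟩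
    · exact subset_TT h (Finset.mem_filter.1 hw).1
    · exact TT_a h _ (subset_TT h (Finset.mem_filter.1 hz).1)
  exact fun w hw => ⟨key w hw, key _ (Wu_c h hU w hw)⟩

theorem bdy_TT (h : Sys p a b c) (hSa : ∀ x ∈ S, a x ∈ S) (hSb : ∀ x ∈ S, b x ∈ S)
    (hU : Adm a b c S U) :
    (bdy c (S ∪ TT h U)).card + 2 * (A1 c S U).card + (Wu a c S U).card ≤
      (bdy c S).card + 2 * p * (FF a b U).card := by
  have h1 := bdy_union (c := c) h.pc (TT_dis h hSa hSb hU)
  have h2 : (A1 c S U).card ≤ ((TT h U).filter fun x => c x ∈ S).card := by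
    apply Finset.card_le_card
    intro x hx
    rw [A1, Finset.mem_filter] at hx
    rw [Finset.mem_filter]
    exact ⟨subset_TT h hx.1, hx.2⟩
  have h3 : (Wu a c S U).card ≤ ((TT h U).filter fun x => c x ∈ TT h U).card := by
    apply Finset.card_le_card
    intro x hx
    rw [Finset.mem_filter]
    exact Wu_sub h hU x hx
  rw [card_TT h] at h1
  omega

theorem bdy_even (h : Sys p a b c) (hSa : ∀ x ∈ S, a x ∈ S) : Even (bdy c S).card := by
  apply even_of_invol a
  · intro x hx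
    rw [bdy, Finset.mem_filter] at hx ⊢
    refine ⟨hSa x hx.1, fun hc => hx.2 ?_⟩
    rw [← (comm_ac h.pa h.pc h.ac x).1] at hc
    have h2 := hSa _ hc
    rwa [(h.pa (c x)).2] at h2
  · exact fun x _ => (h.pa x).2
  · exact fun x _ => (h.pa x).1

end MPbcd198.U
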