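import Pool.Agent.Lib.MP_bcd198_co.U.Orb

/-!
# JOB U/Faces: the faces meeting `U`

`FF` = set of faces meeting `U`, `TT` = union of these faces (flags).
* `mem_TT`: by definition. `subset_TT`: `fc_self`. `TT_a`, `TT_b`: `fc_left`, `fc_right`.
* `TT_dis`: if `x ∈ TT` is in `S` then the face of `x` is in `S` (`mem_of_mem_fc`), but it contains a point of `U`.
* `card_TT`: the faces are disjoint (`fc_eq_of_mem`) with `2 p` elements (`Finset.card_biUnion` or fibres of `x ↦ fc x`:
  `Finset.card_eq_sum_card_fiberwise`).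
* `FF_le`: `FF` is the image of `U`.
* `even_face`: for every set `Q` of faces the set `{x ∈ U ∩ P₂ : face of x in Q}` has an even number of elements: `{x ∈ U : fc x ∈ Q}` is closed under `b` and
  `{x ∈ U ∩ P₁ : fc x ∈ Q}` is closed under `a` (`comm_ac`: `c (a x) = a (c x) ∈ S`); `even_of_invol`; difference.
* `two_FF_le`: suppose `U ∩ P₂ ≠ ∅` and `U` is minimal (`hmin`). Every face `f ∈ FF` contains a point of `U ∩ P₂`: otherwise `V = {x ∈ U : fc x = f}`
  consists of points of `P₁` (`c x ∈ S`), it is closed under `a`, `b`, so it is a `Comp`, so `V = U`, contradiction to `U ∩ P₂ ≠ ∅`. By `even_face` (`Q = {f}`) it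
  contains at least two. Sum over the faces.
* `TT_eq`: if `U` is closed under `a` (and `b`) then `TT = U` (`mem_of_mem_fc`).
-/

set_option autoImplicit false

namespace MPbcd198.U

open Equiv

variable {X : Type} [DecidableEq X] {p : ℕ} {a b c : Perm X} {S U : Finset X}

/-- the faces meeting `U` -/
noncomputable def FF (a b : Perm X) (U : Finset X) : Finset (Set X) :=
  open Classical in U.image (fc a b)

/-- the union of the faces meeting `U` -/
noncomputable def TT {a b c : Perm X} (h : Sys p a b c) (U : Finset X) : Finset X :=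
  open Classical in U.biUnion fun x =>
    (fc_finite (le_trans (by norm_num) h.hp : 1 ≤ p) h.pa h.pb h.ab x).toFinset

theorem mem_TT (h : Sys p a b c) {x : X} : x ∈ TT h U ↔ ∃ y ∈ U, x ∈ fc a b y := by
  unfold TT
  simp only [Finset.mem_biUnion, Set.Finite.mem_toFinset]

theorem mem_TT' (h : Sys p a b c) {x : X} : x ∈ TT h U ↔ fc a b x ∈ FF a b U := by
  rw [mem_TT]
  unfold FF
  rw [Finset.mem_image]
  constructor
  · rintro ⟨y, hy, hx⟩
    exact ⟨y, hy, (fc_eq_of_mem hx).symm⟩
  · rintro ⟨y, hy, hx⟩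
    exact ⟨y, hy, hx ▸ fc_self x⟩

theorem subset_TT (h : Sys p a b c) : U ⊆ TT h U := fun x hx =>
  (mem_TT h).2 ⟨x, hx, fc_self x⟩

theorem TT_a (h : Sys p a b c) : ∀ x ∈ TT h U, a x ∈ TT h U := by
  intro x hx
  rw [mem_TT'] at hx ⊢
  rwa [fc_left]

theorem TT_b (h : Sys p a b c) : ∀ x ∈ TT h U, b x ∈ TT h U := by
  intro x hx
  rw [mem_TT'] at hx ⊢
  rwa [fc_right]

theorem TT_dis (h : Sys p a b c) (hSa : ∀ x ∈ S, a x ∈ S) (hSb : ∀ x ∈ S, b x ∈ S)
    (hU : Adm a b c S U) : ∀ x ∈ TT h U, x ∉ S := by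
  intro x hx hxS
  obtain ⟨y, hy, hxy⟩ := (mem_TT h).1 hx
  have h1 : y ∈ fc a b x := by
    rw [fc_eq_of_mem hxy]
    exact fc_self y
  exact hU.dis y hy (mem_of_mem_fc h.pa h.pb hSa hSb hxS h1)

theorem card_TT (h : Sys p a b c) : (TT h U).card = 2 * p * (FF a b U).card := by
  classical
  have hmaps : ∀ x ∈ TT h U, fc a b x ∈ FF a b U := fun x hx => (mem_TT' h).1 hx
  rw [Finset.card_eq_sum_card_fiberwise (f := fc a b) (t := FF a b U) hmaps]
  have h1 : ∀ f ∈ FF a b U, ((TT h U).filter fun x => fc a b x = f).card = 2 * p := by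
    intro f hf
    have hf' := hf
    unfold FF at hf
    rw [Finset.mem_image] at hf
    obtain ⟨y, hy, rfl⟩ := hf
    rw [← fc_ncard (le_trans (by norm_num) h.hp : 1 ≤ p) h.pa h.pb h.ab y,
      ← Set.ncard_coe_finset]
    congr 1
    ext x
    simp only [Finset.coe_filter, Set.mem_setOf_eq]
    constructor
    · rintro ⟨_, hx⟩
      rw [← hx]
      exact fc_self x
    · intro hx
      have h2 := fc_eq_of_mem hx
      refine ⟨(mem_TT' h).2 ?_, h2⟩
      rw [h2]
      exact hf'
  rw [Finset.sum_congr rfl h1, Finset.sum_const, smul_eq_mul, mul_comm]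

theorem FF_le (U : Finset X) : (FF a b U).card ≤ U.card := Finset.card_image_le

theorem even_face (h : Sys p a b c) (hSa : ∀ x ∈ S, a x ∈ S) (hU : Adm a b c S U)
    (Q : Set X → Prop) : Even (open Classical in ((A2 c S U).filter fun x => Q (fc a b x)).card) := by
  classical
  have e1 : Even (U.filter fun x => Q (fc a b x)).card := by
    refine even_of_invol b ?_ (fun x _ => (h.pb x).2) (fun x _ => (h.pb x).1)
    intro x hx
    rw [Finset.mem_filter] at hx ⊢
    exact ⟨hU.hb x hx.1, by rw [fc_right]; exact hx.2⟩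
  have e2 : Even ((A1 c S U).filter fun x => Q (fc a b x)).card := by
    refine even_of_invol a ?_ (fun x _ => (h.pa x).2) (fun x _ => (h.pa x).1)
    intro x hx
    unfold A1 at hx ⊢
    rw [Finset.mem_filter, Finset.mem_filter] at hx ⊢
    refine ⟨⟨hU.ha x hx.1.1 hx.1.2, ?_⟩, by rw [fc_left]; exact hx.2⟩
    rw [← (comm_ac h.pa h.pc h.ac x).1]
    exact hSa _ hx.1.2
  have e3 : ((A1 c S U).filter fun x => Q (fc a b x)).card +
      ((A2 c S U).filter fun x => Q (fc a b x)).card = (U.filter fun x => Q (fc a b x)).card := by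
    unfold A1 A2
    rw [Finset.filter_comm, Finset.filter_comm (s := U) (p := fun x => c x ∉ S)]
    exact Finset.card_filter_add_card_filter_not (s := U.filter fun x => Q (fc a b x))
      (fun x => c x ∈ S)
  rw [← e3, Nat.even_add] at e1
  have := e1.1 e2
  convert this

theorem even_A2 (h : Sys p a b c) (hSa : ∀ x ∈ S, a x ∈ S) (hU : Adm a b c S U) :
    Even (A2 c S U).card := by
  classical
  have h1 := even_face h hSa hU (fun _ => True)
  have h2 : ((A2 c S U).filter fun x => (fun _ => True) (fc a b x)) = A2 c S U :=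
    Finset.filter_true_of_mem fun _ _ => trivial
  have h3 : Even ((A2 c S U).filter fun x => (fun _ : Set X => True) (fc a b x)).card := by
    convert h1
  rwa [h2] at h3

theorem even_Zu (h : Sys p a b c) (hU : Adm a b c S U) : Even (Zu c S U).card := by
  refine even_of_invol c ?_ (fun x _ => (h.pc x).2) (fun x _ => (h.pc x).1)
  intro x hx
  unfold Zu at hx ⊢
  rw [Finset.mem_filter] at hx ⊢
  rw [(h.pc x).2]
  exact ⟨hx.2.2, hU.dis x hx.1, hx.1⟩

theorem card_A (c : Perm X) (S U : Finset X) : (A1 c S U).card + (A2 c S U).card = U.card := by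
  unfold A1 A2
  exact Finset.card_filter_add_card_filter_not (s := U) (fun x => c x ∈ S)

theorem two_FF_le (h : Sys p a b c) (hSa : ∀ x ∈ S, a x ∈ S) (hU : Adm a b c S U)
    (hmin : ∀ V, Comp a b c S U V → V = U) (h2 : (A2 c S U).Nonempty) :
    2 * (FF a b U).card ≤ (A2 c S U).card := by
  classical
  have hmaps : ∀ x ∈ A2 c S U, fc a b x ∈ FF a b U := by
    intro x hx
    unfold A2 at hx
    unfold FF
    exact Finset.mem_image_of_mem _ (Finset.mem_filter.1 hx).1
  rw [Finset.card_eq_sum_card_fiberwise (f := fc a b) (t := FF a b U) hmaps, mul_comm,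
    ← smul_eq_mul]
  apply Finset.card_nsmul_le_sum
  intro f hf
  have hev := even_face h hSa hU (fun g => g = f)
  have hev' : Even ((A2 c S U).filter fun x => fc a b x = f).card := by
    convert hev
  by_contra hlt
  have h0 : ((A2 c S U).filter fun x => fc a b x = f).card = 0 := by
    obtain ⟨k, hk⟩ := hev'
    omega
  rw [Finset.card_eq_zero] at h0
  have hno : ∀ x ∈ U, fc a b x = f → c x ∈ S := by
    intro x hx hxf
    by_contra hc
    have : x ∈ (A2 c S U).filter fun x => fc a b x = f := by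
      unfold A2
      rw [Finset.mem_filter, Finset.mem_filter]
      exact ⟨⟨hx, hc⟩, hxf⟩
    rw [h0] at this
    exact absurd this (Finset.notMem_empty x)
  have hV : Comp a b c S U (U.filter fun x => fc a b x = f) := by
    refine ⟨Finset.filter_subset _ _, ?_, ?_, ?_, ?_⟩
    · unfold FF at hf
      rw [Finset.mem_image] at hf
      obtain ⟨y, hy, hyf⟩ := hf
      exact ⟨y, Finset.mem_filter.2 ⟨hy, hyf⟩⟩
    · intro x hx
      rw [Finset.mem_filter] at hx ⊢
      exact ⟨hU.hb x hx.1, by rw [fc_right]; exact hx.2⟩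
    · intro x hx hc
      rw [Finset.mem_filter] at hx ⊢
      exact ⟨hU.ha x hx.1 hc, by rw [fc_left]; exact hx.2⟩
    · intro x hx hc _
      rw [Finset.mem_filter] at hx
      exact absurd (hno x hx.1 hx.2) hc
  have hVU := hmin _ hV
  obtain ⟨x, hx⟩ := h2
  unfold A2 at hx
  rw [Finset.mem_filter] at hx
  have hx' : x ∈ U.filter fun x => fc a b x = f := by
    rw [hVU]
    exact hx.1
  exact hx.2 (hno x hx.1 (Finset.mem_filter.1 hx').2)

theorem TT_eq (h : Sys p a b c) (hb : ∀ x ∈ U, b x ∈ U) (ha : ∀ x ∈ U, a x ∈ U) :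
    TT h U = U := by
  apply Finset.Subset.antisymm
  · intro x hx
    obtain ⟨y, hy, hxy⟩ := (mem_TT h).1 hx
    exact mem_of_mem_fc h.pa h.pb ha hb hy hxy
  · exact subset_TT h

end MPbcd198.U
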