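import Pool.Agent.Lib.MP_bcd198_co.U.Tr
import Pool.Agent.Lib.MP_bcd198_co.U.CompS

/-!
# Stream U: main theorems 6.2 and 6.3
-/

set_option autoImplicit false

namespace MPbcd198.U

open Equiv

/-- the step lemma for actions -/
theorem step' {p q : ℕ} (hyp : Hyp p q) {X : Type} {ρ : Tri p q →* Perm X} (hρ : IsMapHom ρ)
    {S U : Finset X} (hS : FaceSet ρ S) (hU : PUClosed ρ S U) (hne : U.Nonempty)
    (he : 0 ≤ eU ρ S U) :
    ∃ S' : Finset X, FaceSet ρ S' ∧ S ⊂ S' ∧ S'.card ≤ S.card + 2 * p * U.card ∧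
      (bd ρ S').card ≤ (bd ρ S).card ∧ (0 < eU ρ S U → (bd ρ S').card + 2 ≤ (bd ρ S).card) := by
  classical
  rw [eU_eq] at he ⊢
  obtain ⟨S', h1, h2, h3, h4, h5, h6⟩ := step (sys_of hyp hρ) (fun x hx => (hS x hx).1)
    (fun x hx => (hS x hx).2) (adm_of hρ hU) hne he
  refine ⟨S', fun x hx => ⟨h1 x hx, h2 x hx⟩, h3, h4, ?_, ?_⟩
  · rw [bd_eq, bd_eq]
    exact h5
  · rw [bd_eq, bd_eq]
    exact h6

/-- [6.2] -/
theorem hull_finite {p q : ℕ} (hyp : Hyp p q) (K : ℕ) : ∃ C₀ : ℕ,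
    ∀ (X : Type) [Finite X] (ρ : Tri p q →* Perm X), IsMapHom ρ → ∀ S₀ : Finset X,
      FaceSet ρ S₀ → S₀.card ≤ K → ∃ S : Finset X, FaceSet ρ S ∧ S₀ ⊆ S ∧
        Nat.card (hat ρ S) ≤ C₀ ∧ (∀ U : Finset X, PUClosed ρ S U → eU ρ S U ≤ 0) ∧
        ∀ x ∈ S, ∃ y ∈ S₀, SConn ρ S y x := by
  classical
  set L : ℕ := 4 * p * q * K + 1 with hL
  refine ⟨(L + 1) * K + 2 * q * (2 * K), fun X _ ρ hρ S₀ h0 hK => ?_⟩
  -- minimise the potential
  let Φ : Finset X → ℕ := fun S => L * (bd ρ S).card + S.card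
  have hex : ∃ n : ℕ, ∃ S : Finset X, FaceSet ρ S ∧ S₀ ⊆ S ∧ Φ S = n := ⟨_, S₀, h0, subset_rfl, rfl⟩
  obtain ⟨S, hS, hsub, hΦ⟩ := Nat.find_spec hex
  have hmin : ∀ S' : Finset X, FaceSet ρ S' → S₀ ⊆ S' → Φ S ≤ Φ S' := by
    intro S' h1 h2
    rw [hΦ]
    exact Nat.find_min' hex ⟨S', h1, h2, rfl⟩
  have hbd0 : (bd ρ S₀).card ≤ S₀.card := Finset.card_le_card (Finset.filter_subset _ _)
  have h1 : Φ S ≤ (L + 1) * K := by
    refine (hmin S₀ h0 subset_rfl).trans ?_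
    simp only [Φ]
    nlinarith
  have hbdS : (bd ρ S).card ≤ 2 * K := by
    simp only [Φ] at h1
    by_contra hcon
    push Not at hcon
    have hLpos : 1 ≤ L := by omega
    nlinarith [Nat.zero_le S.card, Nat.mul_le_mul_left L hcon]
  have hScard : S.card ≤ (L + 1) * K := le_trans (Nat.le_add_left _ _) h1
  refine ⟨S, hS, hsub, ?_, ?_, ?_⟩
  · refine (hat_card hyp hρ hS).trans ?_
    have : 2 * q * (bd ρ S).card ≤ 2 * q * (2 * K) := Nat.mul_le_mul_left _ hbdS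
    omega
  · intro U hU
    by_contra hcon
    push Not at hcon
    have hne : U.Nonempty := by
      rw [Finset.nonempty_iff_ne_empty]
      rintro rfl
      simp [eU] at hcon
    obtain ⟨S', h2, h3, h4, h5, h6⟩ := step' hyp hρ hS hU hne hcon.le
    have h7 := h6 hcon
    have h8 := hmin S' h2 (hsub.trans h3.1)
    have h9 := U_card hyp hρ hS hU
    have h10 : 2 * p * U.card ≤ 2 * p * (2 * q * (2 * K)) :=
      Nat.mul_le_mul_left _ (h9.trans (Nat.mul_le_mul_left _ hbdS))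
    have h11 : L * ((bd ρ S').card + 2) ≤ L * (bd ρ S).card := Nat.mul_le_mul_left _ h7
    have h12 : 2 * p * (2 * q * (2 * K)) + 2 = 2 * L := by
      rw [hL]
      ring
    simp only [Φ] at h8
    nlinarith
  · obtain ⟨S', g1, g2, g3, g4, g5, g6⟩ := comp_split hρ hS hsub
    have h8 := hmin S' g3 g1
    have hle : (bd ρ S').card ≤ (bd ρ S).card := by omega
    have : S' = S := by
      apply Finset.eq_of_subset_of_card_le g2
      simp only [Φ] at h8
      have := Nat.mul_le_mul_left L hle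
      omega
    subst this
    exact g6

/-- [6.3] -/
theorem hull_cyclic {p q : ℕ} (hyp : Hyp p q) (γ : Tri p q) (hγ : ∀ n : ℤ, n ≠ 0 → γ ^ n ≠ 1)
    (hm : IsMapHom (cosetHom (Subgroup.zpowers γ)))
    (S₀ : Finset (Tri p q ⧸ Subgroup.zpowers γ))
    (h₀ : FaceSet (cosetHom (Subgroup.zpowers γ)) S₀) :
    ∃ S : Finset (Tri p q ⧸ Subgroup.zpowers γ), FaceSet (cosetHom (Subgroup.zpowers γ)) S ∧
      S₀ ⊆ S ∧ (∀ U : Finset (Tri p q ⧸ Subgroup.zpowers γ), U.Nonempty →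
        PUClosed (cosetHom (Subgroup.zpowers γ)) S U →
          eU (cosetHom (Subgroup.zpowers γ)) S U < 0) ∧
      ∀ x ∈ S, ∃ y ∈ S₀, SConn (cosetHom (Subgroup.zpowers γ)) S y x := by
  classical
  set ρ := cosetHom (Subgroup.zpowers γ) with hρdef
  have hkap : 0 < kap p q := kap_pos hyp
  have iso : ∀ S : Finset (Tri p q ⧸ Subgroup.zpowers γ), FaceSet ρ S →
      kap p q * S.card ≤ 3 * (bd ρ S).card := fun S hS => isoperimetry hyp γ hγ hm S hS
  -- minimal boundary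
  have hex : ∃ n : ℕ, ∃ S : Finset (Tri p q ⧸ Subgroup.zpowers γ), FaceSet ρ S ∧ S₀ ⊆ S ∧
      (bd ρ S).card = n := ⟨_, S₀, h₀, subset_rfl, rfl⟩
  set n := Nat.find hex with hn
  have hmin : ∀ S' : Finset (Tri p q ⧸ Subgroup.zpowers γ), FaceSet ρ S' → S₀ ⊆ S' →
      n ≤ (bd ρ S').card := fun S' h1 h2 => Nat.find_min' hex ⟨S', h1, h2, rfl⟩
  -- maximal cardinality
  let P : ℕ → Prop := fun k => ∃ S : Finset (Tri p q ⧸ Subgroup.zpowers γ), FaceSet ρ S ∧
    S₀ ⊆ S ∧ (bd ρ S).card = n ∧ S.card = k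
  obtain ⟨S1, hS1, hS1', hS1n⟩ := Nat.find_spec hex
  have hP : P S1.card := ⟨S1, hS1, hS1', hS1n, rfl⟩
  obtain ⟨B, hB⟩ := exists_nat_ge (3 * (n : ℝ) / kap p q)
  have hbound : ∀ k, P k → k ≤ B := by
    rintro k ⟨S, h1, h2, h3, rfl⟩
    have h4 := iso S h1
    rw [h3] at h4
    have h5 : (S.card : ℝ) ≤ 3 * (n : ℝ) / kap p q := by
      rw [le_div_iff₀ hkap]
      linarith
    exact_mod_cast h5.trans hB
  have hfin : ∃ k, P k ∧ ∀ k', P k' → k' ≤ k :=
    ⟨Nat.findGreatest P B, Nat.findGreatest_spec (hbound _ hP) hP,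
      fun k' hk' => Nat.le_findGreatest (hbound _ hk') hk'⟩
  obtain ⟨k, ⟨S, hS, hsub, hbd, hcard⟩, hmax⟩ := hfin
  refine ⟨S, hS, hsub, ?_, ?_⟩
  · intro U hne hU
    by_contra hcon
    push Not at hcon
    obtain ⟨S', h2, h3, h4, h5, h6⟩ := step' hyp hm hS hU hne hcon
    have h7 := hmin S' h2 (hsub.trans h3.1)
    have h8 := hmax S'.card ⟨S', h2, hsub.trans h3.1, by omega, rfl⟩
    have h9 := Finset.card_lt_card h3
    omega
  · obtain ⟨S', g1, g2, g3, g4, g5, g6⟩ := comp_split hm hS hsub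
    have h7 := hmin S' g3 g1
    have h8 : (bd ρ (S \ S')).card = 0 := by omega
    have h9 := iso _ g4
    rw [h8] at h9
    have h10 : (S \ S').card = 0 := by
      have h11 : ((S \ S').card : ℝ) ≤ 0 := by
        by_contra hcon
        push Not at hcon
        have := mul_pos hkap hcon
        push_cast at h9
        linarith
      exact_mod_cast le_antisymm h11 (Nat.cast_nonneg _)
    have : S' = S := by
      apply Finset.Subset.antisymm g2
      rw [← Finset.sdiff_eq_empty_iff_subset]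
      exact Finset.card_eq_zero.mp h10
    subst this
    exact g6

end MPbcd198.U
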