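import Pool.Agent.Lib.MP_bcd198_co.U.Base

/-!
# JOB U/Orb: orbits of two fixed point free involutions; commutation

* `fc_self`, `fc_left`, `fc_right`, `fc_eq_of_mem`: group closure.
* `mem_of_mem_fc`: a finset closed under `a` and `b` is closed under the subgroup (`Subgroup.closure_induction`; the inverse: `g` maps the finite
  set into itself injectively, hence bijectively; or: `a`, `b` are involutions, so every element of the subgroup is a product of `a`'s and `b`'s
  (`Subgroup.closure_induction` with `a⁻¹ = a`)).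
* `fc_finite`, `fc_ncard`: let `d = a * b`; minimal period of `d` at every point is `r ≥ 1`. The orbit is `O = {d^i x : i < r} ∪ {b (d^i x) : i < r}`
  (`a (d^i x) = b (d^(i-1) x)`, indices mod `r`, because `a d = b⁻¹... `: `a * d = a * a * b = b`, so `a (d^(i) x) = b (d^(i-1) x)`; and
  `a (b (d^i x)) = d^(i+1) x`). The `d^i x` are distinct, so are the `b (d^i x)`; `b (d^i x) = d^j x` is impossible: as
  `b d = d⁻¹ b` we get `b (d^(i+n) x) = d^(j-n) x` for all integers `n`; if `j - i = 2 n` this is a fixed point of `b`; if `j - i = 2 n + 1`, then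
  with `u = d^(i+n) x` we have `b u = d u = a (b u)`, a fixed point of `a`. So `|O| = 2 r`.
* `comm_ac`: `Rel 2 a c` says that `a c` has minimal period 2 everywhere, so `(a c)^2 = 1` and `a c x ≠ x`; hence `a (c x) = c (a x)` (involutions),
  and `a x ≠ c x`.
-/

set_option autoImplicit false

namespace MPbcd198.U

open Equiv

variable {X : Type} {a b c : Perm X}

theorem fc_self (x : X) : x ∈ fc a b x := ⟨1, one_mem _, rfl⟩

private theorem Orb_eq_of_mem {x y : X} (h : y ∈ fc a b x) : fc a b y = fc a b x := by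
  obtain ⟨g, hg, rfl⟩ := h
  ext z
  constructor
  · rintro ⟨k, hk, rfl⟩
    exact ⟨k * g, mul_mem hk hg, rfl⟩
  · rintro ⟨k, hk, rfl⟩
    exact ⟨k * g⁻¹, mul_mem hk (inv_mem hg), by simp⟩

theorem fc_left (x : X) : fc a b (a x) = fc a b x :=
  Orb_eq_of_mem ⟨a, Subgroup.subset_closure (by simp), rfl⟩

theorem fc_right (x : X) : fc a b (b x) = fc a b x :=
  Orb_eq_of_mem ⟨b, Subgroup.subset_closure (by simp), rfl⟩

theorem fc_eq_of_mem {x y : X} (h : y ∈ fc a b x) : fc a b y = fc a b x := Orb_eq_of_mem h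

private theorem Orb_closed (ha : IsPM a) (hb : IsPM b) {S : Set X} (h1 : ∀ x ∈ S, a x ∈ S)
    (h2 : ∀ x ∈ S, b x ∈ S) {x y : X} (hx : x ∈ S) (hy : y ∈ fc a b x) : y ∈ S := by
  obtain ⟨g, hg, rfl⟩ := hy
  have key : ∀ g ∈ Subgroup.closure ({a, b} : Set (Perm X)), ∀ z, g z ∈ S ↔ z ∈ S := by
    intro g hg
    induction hg using Subgroup.closure_induction with
    | mem u hu =>
      intro z
      rcases hu with rfl | hu
      · refine ⟨fun h => ?_, fun h => h1 z h⟩
        have := h1 _ h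
        rwa [(ha z).2] at this
      · have hu' : u = b := hu
        subst hu'
        refine ⟨fun h => ?_, fun h => h2 z h⟩
        have := h2 _ h
        rwa [(hb z).2] at this
    | one => intro z; rfl
    | mul u v _ _ hu hv =>
      intro z
      rw [Perm.mul_apply, hu, hv]
    | inv u _ hu =>
      intro z
      rw [← hu (u⁻¹ z)]
      simp
  exact (key g hg x).2 hx

theorem mem_of_mem_fc (ha : IsPM a) (hb : IsPM b) {S : Finset X} (h1 : ∀ x ∈ S, a x ∈ S)
    (h2 : ∀ x ∈ S, b x ∈ S) {x y : X} (hx : x ∈ S) (hy : y ∈ fc a b x) : y ∈ S := by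
  have := Orb_closed ha hb (S := (S : Set X)) (fun x hx => Finset.mem_coe.2 (h1 x (Finset.mem_coe.1 hx)))
    (fun x hx => Finset.mem_coe.2 (h2 x (Finset.mem_coe.1 hx))) (Finset.mem_coe.2 hx) hy
  exact Finset.mem_coe.1 this

private theorem Orb_ad (ha : IsPM a) (y : X) : a ((a * b) y) = b y := by
  rw [Perm.mul_apply, (ha _).2]

private theorem Orb_bd (ha : IsPM a) (hb : IsPM b) (y : X) : b ((a * b) y) = (a * b)⁻¹ (b y) := by
  rw [eq_comm, Perm.inv_eq_iff_eq, Perm.mul_apply, Perm.mul_apply, (hb _).2, (ha _).2]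

private theorem Orb_bzpow (ha : IsPM a) (hb : IsPM b) (n : ℤ) (y : X) :
    b (((a * b) ^ n) y) = ((a * b) ^ (-n)) (b y) := by
  have h1 : b * (a * b) = (a * b)⁻¹ * b := by
    ext y
    exact Orb_bd ha hb y
  have h2 : ∀ n : ℤ, b * (a * b) ^ n = (a * b) ^ (-n) * b := by
    intro n
    have h3 : b * (a * b) * b⁻¹ = (a * b)⁻¹ := by
      rw [h1, mul_assoc, mul_inv_cancel, mul_one]
    have h4 : (b * (a * b) * b⁻¹) ^ n = b * (a * b) ^ n * b⁻¹ := conj_zpow
    rw [h3, inv_zpow'] at h4
    rw [h4, mul_assoc, inv_mul_cancel, mul_one]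
  have := congrArg (fun σ : Perm X => σ y) (h2 n)
  exact this

private theorem Orb_ne (ha : IsPM a) (hb : IsPM b) (x : X) (i j : ℤ) :
    b (((a * b) ^ i) x) ≠ ((a * b) ^ j) x := by
  intro h
  have key : ∀ n : ℤ, b (((a * b) ^ (i + n)) x) = ((a * b) ^ (j - n)) x := by
    intro n
    have h1 : ((a * b) ^ (i + n)) x = ((a * b) ^ n) (((a * b) ^ i) x) := by
      rw [add_comm, zpow_add, Perm.mul_apply]
    rw [h1, Orb_bzpow ha hb, h, ← Perm.mul_apply, ← zpow_add]
    congr 2
    ring
  rcases Int.even_or_odd' (j - i) with ⟨n, hn | hn⟩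
  · have h1 := key n
    have h2 : j - n = i + n := by linarith
    rw [h2] at h1
    exact (hb _).1 h1
  · have h1 := key n
    have h2 : j - n = 1 + (i + n) := by linarith
    rw [h2, zpow_add (a * b) 1 (i + n), Perm.mul_apply ((a * b) ^ (1 : ℤ)), zpow_one,
      Perm.mul_apply a b] at h1
    exact (ha _).1 h1.symm

private def OrbF (a b : Perm X) (r : ℕ) (x : X) : Fin r ⊕ Fin r → X
  | Sum.inl i => ((a * b) ^ (i : ℕ)) x
  | Sum.inr i => b (((a * b) ^ (i : ℕ)) x)

private theorem Orb_per {r : ℕ} (h : Rel r a b) (x : X) : ((a * b) ^ r) x = x := by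
  have := Function.isPeriodicPt_minimalPeriod (⇑(a * b)) x
  rw [h x] at this
  rw [← Equiv.Perm.iterate_eq_pow]
  exact this

private theorem Orb_inj {r : ℕ} (ha : IsPM a) (hb : IsPM b) (h : Rel r a b) (x : X) :
    Function.Injective (OrbF a b r x) := by
  have hd : ∀ i j : Fin r, ((a * b) ^ (i : ℕ)) x = ((a * b) ^ (j : ℕ)) x → i = j := by
    intro i j hij
    rw [← Equiv.Perm.iterate_eq_pow, ← Equiv.Perm.iterate_eq_pow] at hij
    have hi : (i : ℕ) < Function.minimalPeriod (⇑(a * b)) x := by rw [h x]; exact i.2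
    have hj : (j : ℕ) < Function.minimalPeriod (⇑(a * b)) x := by rw [h x]; exact j.2
    have := (Function.iterate_eq_iterate_iff_of_lt_minimalPeriod hi hj).1 hij
    exact Fin.ext this
  rintro (i | i) (j | j) hij
  · rw [hd i j hij]
  · exfalso
    have h1 : ((a * b) ^ (i : ℕ)) x = b (((a * b) ^ (j : ℕ)) x) := hij
    have h2 := Orb_ne ha hb x (j : ℕ) (i : ℕ)
    rw [zpow_natCast, zpow_natCast] at h2
    exact h2 h1.symm
  · exfalso
    have h1 : b (((a * b) ^ (i : ℕ)) x) = ((a * b) ^ (j : ℕ)) x := hij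
    have h2 := Orb_ne ha hb x (i : ℕ) (j : ℕ)
    rw [zpow_natCast, zpow_natCast] at h2
    exact h2 h1
  · have h1 : b (((a * b) ^ (i : ℕ)) x) = b (((a * b) ^ (j : ℕ)) x) := hij
    rw [hd i j (b.injective h1)]

private theorem Orb_range {r : ℕ} (hr : 1 ≤ r) (ha : IsPM a) (hb : IsPM b) (h : Rel r a b)
    (x : X) : fc a b x = Set.range (OrbF a b r x) := by
  apply Set.Subset.antisymm
  · intro y hy
    refine Orb_closed ha hb (S := Set.range (OrbF a b r x)) ?_ ?_ ?_ hy
    · rintro _ ⟨i | i, rfl⟩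
      · obtain ⟨i, hi⟩ := i
        cases i with
        | zero =>
          refine ⟨Sum.inr ⟨r - 1, by omega⟩, ?_⟩
          change b (((a * b) ^ (r - 1)) x) = a (((a * b) ^ 0) x)
          rw [pow_zero, Perm.one_apply]
          have h1 : ((a * b) ^ r) x = (a * b) (((a * b) ^ (r - 1)) x) := by
            rw [← Perm.mul_apply, ← pow_succ']
            congr 2
            omega
          have h2 : a x = a (((a * b) ^ r) x) := by rw [Orb_per h]
          rw [h2, h1, Orb_ad ha]
        | succ i =>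
          refine ⟨Sum.inr ⟨i, by omega⟩, ?_⟩
          change b (((a * b) ^ i) x) = a (((a * b) ^ (i + 1)) x)
          rw [pow_succ', Perm.mul_apply (a * b) ((a * b) ^ i), Orb_ad ha]
      · obtain ⟨i, hi⟩ := i
        by_cases hi' : i + 1 < r
        · refine ⟨Sum.inl ⟨i + 1, hi'⟩, ?_⟩
          change ((a * b) ^ (i + 1)) x = a (b (((a * b) ^ i) x))
          rw [pow_succ', Perm.mul_apply (a * b) ((a * b) ^ i), Perm.mul_apply a b]
        · refine ⟨Sum.inl ⟨0, by omega⟩, ?_⟩
          change ((a * b) ^ 0) x = a (b (((a * b) ^ i) x))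
          rw [pow_zero, Perm.one_apply]
          have h1 : i + 1 = r := by omega
          have h2 := Orb_per h x
          rw [← h1, pow_succ', Perm.mul_apply (a * b) ((a * b) ^ i), Perm.mul_apply a b] at h2
          exact h2.symm
    · rintro _ ⟨i | i, rfl⟩
      · exact ⟨Sum.inr i, rfl⟩
      · exact ⟨Sum.inl i, ((hb _).2).symm⟩
    · exact ⟨Sum.inl ⟨0, by omega⟩, rfl⟩
  · rintro _ ⟨i | i, rfl⟩
    · refine ⟨(a * b) ^ (i : ℕ), pow_mem (mul_mem ?_ ?_) _, rfl⟩
      · exact Subgroup.subset_closure (by simp)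
      · exact Subgroup.subset_closure (by simp)
    · refine ⟨b * (a * b) ^ (i : ℕ), mul_mem ?_ (pow_mem (mul_mem ?_ ?_) _), rfl⟩
      · exact Subgroup.subset_closure (by simp)
      · exact Subgroup.subset_closure (by simp)
      · exact Subgroup.subset_closure (by simp)

theorem fc_finite {r : ℕ} (hr : 1 ≤ r) (ha : IsPM a) (hb : IsPM b) (h : Rel r a b) (x : X) :
    (fc a b x).Finite := by
  rw [Orb_range hr ha hb h x]
  exact Set.finite_range _

theorem fc_ncard {r : ℕ} (hr : 1 ≤ r) (ha : IsPM a) (hb : IsPM b) (h : Rel r a b) (x : X) :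
    (fc a b x).ncard = 2 * r := by
  rw [Orb_range hr ha hb h x, ← Set.image_univ,
    Set.ncard_image_of_injective _ (Orb_inj ha hb h x), Set.ncard_univ, Nat.card_eq_fintype_card,
    Fintype.card_sum, Fintype.card_fin, two_mul]

theorem comm_ac (ha : IsPM a) (hc : IsPM c) (h : Rel 2 a c) (x : X) :
    a (c x) = c (a x) ∧ a x ≠ c x := by
  constructor
  · have h1 := Orb_per h x
    rw [pow_two, Perm.mul_apply, Perm.mul_apply, Perm.mul_apply] at h1
    have h2 := congrArg a h1
    rw [(ha _).2] at h2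
    have h3 := congrArg c h2
    rw [(hc _).2] at h3
    exact h3
  · intro h1
    have h2 : Function.IsFixedPt (⇑(a * c)) x := by
      change (a * c) x = x
      rw [Perm.mul_apply, ← h1, (ha _).2]
    have h3 := Function.minimalPeriod_eq_one_iff_isFixedPt.2 h2
    rw [h x] at h3
    exact absurd h3 (by norm_num)

/-- parity -/
theorem even_of_invol {s : Finset X} (f : X → X) (h1 : ∀ x ∈ s, f x ∈ s)
    (h2 : ∀ x ∈ s, f (f x) = x) (h3 : ∀ x ∈ s, f x ≠ x) : Even s.card := by
  have h4 : ∑ x ∈ s, (1 : ZMod 2) = 0 :=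
    Finset.sum_involution (fun x _ => f x) (fun _ _ => by decide) (fun x hx _ => h3 x hx)
      (fun x hx => h1 x hx) (fun x hx => h2 x hx)
  rw [Finset.sum_const, nsmul_eq_mul, mul_one] at h4
  exact (ZMod.natCast_eq_zero_iff_even).1 h4

end MPbcd198.U
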