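import Pool.Agent.Lib.MP_bcd198_co.U.Cases

/-!
# JOB U/Step: Lemma 6.1

`step_min`: `U` nonempty, minimal (`hmin`), `0 ≤ e(U)`. Put `T = TT h U`, `k2 = |A1|`, `x = |A2|`, `z = |Zu|`, `w = |Wu|`, `f = |FF|`, `Δ = |∂(S ∪ T)| - |∂S|` (integer).
`bdy_TT`: `Δ ≤ 2 p f - 2 k2 - w`.  `|U| = k2 + x` (`card_A`).  `0 ≤ e(U)` means `2 k2 + p z ≥ 2 (p - 1) x` (multiply by `4 p`: `2 (k2 + x) - 2 p x + p z ≥ 0`), strict if `0 < e(U)`.
`z ≤ x` (`Zu ⊆ A2`).
(0) `x = 0`: then `c x ∈ S` for all `x ∈ U`, `U` is closed under `a`, `T = U` (`TT_eq`), `2 p f = |T| = |U| = k2` (`card_TT`), `Δ ≤ k2 - 2 k2 = - k2 ≤ -1`; `Δ` even (`bdy_even`) so `Δ ≤ -2`.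
(1) `x > 0`, `z < x`: `x`, `z` even (`even_A2`, `even_Zu`), so `x - z ≥ 2`; `2 f ≤ x` (`two_FF_le`), `4 f ≤ w + 4` (`conn_W`):
  `Δ ≤ 2 p f - 2 k2 - (4 f - 4) = (2 p - 4) f + 4 - 2 k2 ≤ (p - 2) x + 4 - (2 (p - 1) x - p z) = 4 - p (x - z) ≤ 4 - 2 p ≤ -2`.
(2) `x > 0`, `z = x` (so `A2 = Zu`), some `y ∈ Zu` has `a y ∉ Zu`: `4 f ≤ w` (`conn_W'`): `Δ ≤ 2 p f - 2 k2 - 4 f = (2 p - 4) f - 2 k2 ≤ (p - 2) x - (2 (p - 1) x - p x) = 0`,
  and `< 0` if `0 < e(U)`; `Δ` is even (`bdy_even` for `S` and `S ∪ T`), so then `Δ ≤ -2`.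
(3) `x > 0`, `z = x`, `Zu = A2` closed under `a`: `U` is closed under `a` and `b`, `T = U`, `2 p f = |U| = k2 + x`, `w = x` at least (`Zu ⊆ Wu`): `Δ ≤ k2 + x - 2 k2 - x = - k2`. If
  `k2 = 0` then `U = A2 = Zu` is closed under `b` and `c`, contradiction to `hU.hv` (`V = U`). So `Δ ≤ -1`, even, `≤ -2`.
The new set `S' = S ∪ T`: closed under `a`, `b`; `S ⊂ S'` (`T` nonempty, disjoint from `S`); `|S'| ≤ |S| + 2 p f ≤ |S| + 2 p |U|` (`FF_le`).

`step`: general `U` with `0 ≤ e(U)` (resp. `0 < e(U)`): strong induction on `|U|`. If `U` is minimal (`hmin`) use `step_min`. Otherwise there is a `Comp` `V ≠ U`;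
`V' = U \ V` is nonempty, and both are `Adm` (`V'` closed under `b`: `b` is an involution; `a`: if `x ∈ V'`, `c x ∈ S`, then `a x ∈ U`, and if `a x ∈ V` then `c (a x) = a (c x) ∈ S` and
`a (a x) = x ∈ V`, contradiction); `e(U) = e(V) + e(V')` (`A2`, `Zu` of `U` are the disjoint unions: for `x ∈ V'`, `c x ∉ S`, `c x ∈ U` we have `c x ∈ V'`, otherwise `x = c (c x) ∈ V` [`x ∉ S` by `hU.dis`]).
So one of them has `0 ≤ e` (resp. `0 < e`; if `0 < e(U)` one of them has `0 < e`). Induction.
-/

set_option autoImplicit false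

namespace MPbcd198.U

open Equiv

variable {X : Type} [DecidableEq X] {p : ℕ} {a b c : Perm X} {S U : Finset X}

private theorem Step_ee (hp : 3 ≤ p) (c : Perm X) (S U : Finset X) :
    ee p c S U = (2 * (((A1 c S U).card : ℝ) + (A2 c S U).card) - 2 * p * (A2 c S U).card +
      p * (Zu c S U).card) / (4 * p) := by
  have hp' : (p : ℝ) ≠ 0 := by
    have : 0 < p := by omega
    exact_mod_cast this.ne'
  have hcard : ((A1 c S U).card : ℝ) + (A2 c S U).card = U.card := by
    exact_mod_cast card_A c S U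
  unfold ee
  rw [hcard]
  field_simp
  ring

private theorem Step_ee_nonneg (hp : 3 ≤ p) (c : Perm X) (S U : Finset X) (h : 0 ≤ ee p c S U) :
    2 * p * (A2 c S U).card ≤ 2 * ((A1 c S U).card + (A2 c S U).card) + p * (Zu c S U).card := by
  rw [Step_ee hp] at h
  have hp' : (0 : ℝ) < p := by
    have : 0 < p := by omega
    exact_mod_cast this
  have h2 : (0 : ℝ) ≤ 2 * (((A1 c S U).card : ℝ) + (A2 c S U).card) - 2 * p * (A2 c S U).card +
      p * (Zu c S U).card := by
    by_contra hcon
    rw [not_le] at hcon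
    have := div_neg_of_neg_of_pos hcon (by positivity : (0 : ℝ) < 4 * p)
    linarith
  have h3 : 2 * (p : ℝ) * (A2 c S U).card ≤ 2 * (((A1 c S U).card : ℝ) + (A2 c S U).card) +
      p * (Zu c S U).card := by linarith
  exact_mod_cast h3

private theorem Step_ee_pos (hp : 3 ≤ p) (c : Perm X) (S U : Finset X) (h : 0 < ee p c S U) :
    2 * p * (A2 c S U).card < 2 * ((A1 c S U).card + (A2 c S U).card) + p * (Zu c S U).card := by
  rw [Step_ee hp] at h
  have hp' : (0 : ℝ) < p := by
    have : 0 < p := by omega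
    exact_mod_cast this
  have h2 : (0 : ℝ) < 2 * (((A1 c S U).card : ℝ) + (A2 c S U).card) - 2 * p * (A2 c S U).card +
      p * (Zu c S U).card := by
    by_contra hcon
    rw [not_lt] at hcon
    have := div_nonpos_of_nonpos_of_nonneg hcon (by positivity : (0 : ℝ) ≤ 4 * p)
    linarith
  have h3 : 2 * (p : ℝ) * (A2 c S U).card < 2 * (((A1 c S U).card : ℝ) + (A2 c S U).card) +
      p * (Zu c S U).card := by linarith
  exact_mod_cast h3

theorem step_min (h : Sys p a b c) (hSa : ∀ x ∈ S, a x ∈ S) (hSb : ∀ x ∈ S, b x ∈ S)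
    (hU : Adm a b c S U) (hne : U.Nonempty) (hmin : ∀ V, Comp a b c S U V → V = U)
    (he : 0 ≤ ee p c S U) :
    ∃ S' : Finset X, (∀ x ∈ S', a x ∈ S') ∧ (∀ x ∈ S', b x ∈ S') ∧ S ⊂ S' ∧
      S'.card ≤ S.card + 2 * p * U.card ∧ (bdy c S').card ≤ (bdy c S).card ∧
      (0 < ee p c S U → (bdy c S').card + 2 ≤ (bdy c S).card) := by
  have hSa' : ∀ x ∈ S ∪ TT h U, a x ∈ S ∪ TT h U := by
    intro x hx
    rw [Finset.mem_union] at hx ⊢
    rcases hx with hx | hx
    · exact Or.inl (hSa x hx)
    · exact Or.inr (TT_a h x hx)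
  have hSb' : ∀ x ∈ S ∪ TT h U, b x ∈ S ∪ TT h U := by
    intro x hx
    rw [Finset.mem_union] at hx ⊢
    rcases hx with hx | hx
    · exact Or.inl (hSb x hx)
    · exact Or.inr (TT_b h x hx)
  have hss : S ⊂ S ∪ TT h U := by
    rw [Finset.ssubset_iff_of_subset Finset.subset_union_left]
    obtain ⟨x, hx⟩ := hne
    exact ⟨x, Finset.mem_union_right _ (subset_TT h hx), hU.dis x hx⟩
  have hcardT := card_TT (U := U) h
  have hFF := FF_le (a := a) (b := b) U
  have hcard : (S ∪ TT h U).card ≤ S.card + 2 * p * U.card := by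
    refine (Finset.card_union_le _ _).trans ?_
    rw [hcardT]
    exact Nat.add_le_add_left (Nat.mul_le_mul_left _ hFF) _
  have hpar1 := bdy_even h hSa
  have hpar2 := bdy_even h hSa'
  have hbdy := bdy_TT h hSa hSb hU
  have hU1 : 1 ≤ U.card := Finset.card_pos.2 hne
  have hcA := card_A c S U
  have hp := h.hp
  have hzx : (Zu c S U).card ≤ (A2 c S U).card := by
    apply Finset.card_le_card
    intro x hx
    rw [Zu, Finset.mem_filter] at hx
    rw [A2, Finset.mem_filter]
    exact ⟨hx.1, hx.2.1⟩
  have he1 := Step_ee_nonneg hp c S U he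
  have key : (bdy c (S ∪ TT h U)).card ≤ (bdy c S).card ∧
      (0 < ee p c S U → (bdy c (S ∪ TT h U)).card < (bdy c S).card) := by
    rcases (A2 c S U).eq_empty_or_nonempty with h0 | h0
    · -- case 0
      have hA : ∀ x ∈ U, a x ∈ U := by
        intro x hx
        apply hU.ha x hx
        by_contra hcon
        have : x ∈ A2 c S U := by
          rw [A2, Finset.mem_filter]
          exact ⟨hx, hcon⟩
        rw [h0] at this
        exact absurd this (Finset.notMem_empty _)
      have hT := TT_eq h hU.hb hA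
      rw [hT] at hcardT
      rw [h0, Finset.card_empty] at hcA
      have : (bdy c (S ∪ TT h U)).card < (bdy c S).card := by omega
      exact ⟨this.le, fun _ => this⟩
    · have hx1 := Finset.card_pos.2 h0
      have hff := two_FF_le h hSa hU hmin h0
      have hxe := even_A2 h hSa hU
      have hze := even_Zu h hU
      -- `(p - 2) * (2 f) ≤ (p - 2) * x`
      obtain ⟨q, rfl⟩ : ∃ q, p = q + 2 := ⟨p - 2, by omega⟩
      have hmul : q * (2 * (FF a b U).card) ≤ q * (A2 c S U).card := Nat.mul_le_mul_left _ hff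
      by_cases hlt : (Zu c S U).card < (A2 c S U).card
      · have hconn := conn_W h hU hne hmin
        have hd : (Zu c S U).card + 2 ≤ (A2 c S U).card := by
          obtain ⟨r, hr⟩ := hxe
          obtain ⟨s, hs⟩ := hze
          omega
        have hmul2 : (q + 2) * ((Zu c S U).card + 2) ≤ (q + 2) * (A2 c S U).card :=
          Nat.mul_le_mul_left _ hd
        have : (bdy c (S ∪ TT h U)).card < (bdy c S).card := by
          have e1 : q * (2 * (FF a b U).card) = 2 * (q * (FF a b U).card) := by ring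
          have e2 : 2 * (q + 2) * (FF a b U).card = 2 * (q * (FF a b U).card) +
            4 * (FF a b U).card := by ring
          have e3 : 2 * (q + 2) * (A2 c S U).card = 2 * (q * (A2 c S U).card) +
            4 * (A2 c S U).card := by ring
          have e4 : (q + 2) * (Zu c S U).card = q * (Zu c S U).card + 2 * (Zu c S U).card := by ring
          have e5 : (q + 2) * ((Zu c S U).card + 2) = q * (Zu c S U).card +
            2 * (Zu c S U).card + 2 * q + 4 := by ring
          have e6 : (q + 2) * (A2 c S U).card = q * (A2 c S U).card + 2 * (A2 c S U).card := by ring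
          rw [e1] at hmul
          rw [e2] at hbdy
          rw [e3, e4] at he1
          rw [e5, e6] at hmul2
          omega
        exact ⟨this.le, fun _ => this⟩
      · have hzx' : (Zu c S U).card = (A2 c S U).card := by omega
        have hsub : Zu c S U ⊆ A2 c S U := by
          intro x hx
          rw [Zu, Finset.mem_filter] at hx
          rw [A2, Finset.mem_filter]
          exact ⟨hx.1, hx.2.1⟩
        have hZA : Zu c S U = A2 c S U := Finset.eq_of_subset_of_card_le hsub (by omega)
        by_cases hex : ∃ y ∈ Zu c S U, a y ∉ Zu c S U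
        · obtain ⟨y, hy, hay⟩ := hex
          have hconn := conn_W' h hSa hU hne hmin (fun x hx => by rw [hZA]; exact hx) hy hay
          have e1 : q * (2 * (FF a b U).card) = 2 * (q * (FF a b U).card) := by ring
          have e2 : 2 * (q + 2) * (FF a b U).card = 2 * (q * (FF a b U).card) +
            4 * (FF a b U).card := by ring
          have e3 : 2 * (q + 2) * (A2 c S U).card = 2 * (q * (A2 c S U).card) +
            4 * (A2 c S U).card := by ring
          have e6 : (q + 2) * (A2 c S U).card = q * (A2 c S U).card + 2 * (A2 c S U).card := by ring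
          rw [e1] at hmul
          rw [e2] at hbdy
          constructor
          · rw [hzx', e3, e6] at he1
            omega
          · intro hpos
            have he2 := Step_ee_pos hp c S U hpos
            rw [hzx', e3, e6] at he2
            omega
        · have hcl : ∀ y ∈ Zu c S U, a y ∈ Zu c S U := by
            intro y hy
            by_contra hcon
            exact hex ⟨y, hy, hcon⟩
          have hA : ∀ x ∈ U, a x ∈ U := by
            intro x hx
            by_cases hcx : c x ∈ S
            · exact hU.ha x hx hcx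
            · have h1 : x ∈ Zu c S U := by
                rw [hZA, A2, Finset.mem_filter]
                exact ⟨hx, hcx⟩
              have h2 := hcl x h1
              rw [Zu, Finset.mem_filter] at h2
              exact h2.1
          have hT := TT_eq h hU.hb hA
          rw [hT] at hcardT
          have hw : (Zu c S U).card ≤ (Wu a c S U).card :=
            Finset.card_le_card Finset.subset_union_left
          have hk : 1 ≤ (A1 c S U).card := by
            by_contra hcon
            have hk0 : (A1 c S U).card = 0 := by omega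
            have hAU : A2 c S U = U := by
              apply Finset.eq_of_subset_of_card_le
              · exact Finset.filter_subset _ _
              · omega
            obtain ⟨x, hx, hcx⟩ := hU.hv U (Finset.Subset.refl _) hne hU.hb
            apply hcx
            rw [← hAU, ← hZA, Zu, Finset.mem_filter] at hx
            exact hx.2.2
          have : (bdy c (S ∪ TT h U)).card < (bdy c S).card := by omega
          exact ⟨this.le, fun _ => this⟩
  refine ⟨S ∪ TT h U, hSa', hSb', hss, hcard, key.1, fun hpos => ?_⟩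
  have h1 := key.2 hpos
  obtain ⟨r, hr⟩ := hpar1
  obtain ⟨s, hs⟩ := hpar2
  omega

private theorem Step_split (h : Sys p a b c) (hSa : ∀ x ∈ S, a x ∈ S) (hU : Adm a b c S U)
    {V : Finset X} (hV : Comp a b c S U V) :
    Adm a b c S V ∧ Adm a b c S (U \ V) ∧ ee p c S U = ee p c S V + ee p c S (U \ V) := by
  refine ⟨⟨fun x hx => hU.dis x (hV.sub hx), hV.hb, hV.ha,
    fun V' hV' => hU.hv V' (hV'.trans hV.sub)⟩, ⟨fun x hx => hU.dis x (Finset.mem_sdiff.1 hx).1,
    ?_, ?_, fun V' hV' => hU.hv V' (hV'.trans Finset.sdiff_subset)⟩, ?_⟩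
  · intro x hx
    rw [Finset.mem_sdiff] at hx ⊢
    refine ⟨hU.hb x hx.1, fun hcon => hx.2 ?_⟩
    have := hV.hb _ hcon
    rwa [(h.pb x).2] at this
  · intro x hx hcx
    rw [Finset.mem_sdiff] at hx ⊢
    refine ⟨hU.ha x hx.1 hcx, fun hcon => hx.2 ?_⟩
    have h1 : c (a x) ∈ S := by
      rw [← (comm_ac h.pa h.pc h.ac x).1]
      exact hSa _ hcx
    have := hV.ha _ hcon h1
    rwa [(h.pa x).2] at this
  · have hun : U = V ∪ (U \ V) := (Finset.union_sdiff_of_subset hV.sub).symm
    have c1 : U.card = V.card + (U \ V).card := by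
      rw [← Finset.card_union_of_disjoint Finset.disjoint_sdiff, ← hun]
    have c2 : (A2 c S U).card = (A2 c S V).card + (A2 c S (U \ V)).card := by
      rw [← Finset.card_union_of_disjoint]
      · rw [A2, A2, A2, ← Finset.filter_union, ← hun]
      · exact Finset.disjoint_filter_filter Finset.disjoint_sdiff
    have c3 : (Zu c S U).card = (Zu c S V).card + (Zu c S (U \ V)).card := by
      rw [← Finset.card_union_of_disjoint]
      · congr 1
        ext x
        simp only [Zu, Finset.mem_union, Finset.mem_filter, Finset.mem_sdiff]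
        constructor
        · rintro ⟨hx, hcs, hcu⟩
          by_cases hxV : x ∈ V
          · exact Or.inl ⟨hxV, hcs, hV.hc x hxV hcs hcu⟩
          · refine Or.inr ⟨⟨hx, hxV⟩, hcs, hcu, fun hcon => hxV ?_⟩
            have := hV.hc _ hcon (by rw [(h.pc x).2]; exact hU.dis x hx)
              (by rw [(h.pc x).2]; exact hx)
            rwa [(h.pc x).2] at this
        · rintro (⟨hx, hcs, hcu⟩ | ⟨⟨hx, _⟩, hcs, hcu, _⟩)
          · exact ⟨hV.sub hx, hcs, hV.sub hcu⟩
          · exact ⟨hx, hcs, hcu⟩
      · exact Finset.disjoint_filter_filter Finset.disjoint_sdiff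
    unfold ee
    rw [c1, c2, c3]
    push_cast
    ring

theorem step (h : Sys p a b c) (hSa : ∀ x ∈ S, a x ∈ S) (hSb : ∀ x ∈ S, b x ∈ S)
    (hU : Adm a b c S U) (hne : U.Nonempty) (he : 0 ≤ ee p c S U) :
    ∃ S' : Finset X, (∀ x ∈ S', a x ∈ S') ∧ (∀ x ∈ S', b x ∈ S') ∧ S ⊂ S' ∧
      S'.card ≤ S.card + 2 * p * U.card ∧ (bdy c S').card ≤ (bdy c S).card ∧
      (0 < ee p c S U → (bdy c S').card + 2 ≤ (bdy c S).card) := by
  have key : ∀ n : ℕ, ∀ U : Finset X, U.card = n → Adm a b c S U → U.Nonempty →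
      0 ≤ ee p c S U →
      ∃ S' : Finset X, (∀ x ∈ S', a x ∈ S') ∧ (∀ x ∈ S', b x ∈ S') ∧ S ⊂ S' ∧
      S'.card ≤ S.card + 2 * p * U.card ∧ (bdy c S').card ≤ (bdy c S).card ∧
      (0 < ee p c S U → (bdy c S').card + 2 ≤ (bdy c S).card) := by
    intro n
    induction n using Nat.strong_induction_on with
    | _ n ih =>
      intro U hn hU hne he
      by_cases hmin : ∀ V, Comp a b c S U V → V = U
      · exact step_min h hSa hSb hU hne hmin he
      · push Not at hmin
        obtain ⟨V, hV, hVU⟩ := hmin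
        obtain ⟨hA1, hA2, hsum⟩ := Step_split (p := p) h hSa hU hV
        have hssub : V ⊂ U := Finset.ssubset_iff_subset_ne.2 ⟨hV.sub, hVU⟩
        have hne' : (U \ V).Nonempty := Finset.sdiff_nonempty.2 hssub.2
        have hlt1 : V.card < n := by
          rw [← hn]
          exact Finset.card_lt_card hssub
        have hc : V.card + (U \ V).card = U.card := by
          rw [← Finset.card_union_of_disjoint Finset.disjoint_sdiff,
            Finset.union_sdiff_of_subset hV.sub]
        have hV1 : 1 ≤ V.card := Finset.card_pos.2 hV.ne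
        have hlt2 : (U \ V).card < n := by omega
        have hle1 : V.card ≤ U.card := by omega
        have hle2 : (U \ V).card ≤ U.card := by omega
        have fin : ∀ V₀ : Finset X, V₀.card < n → V₀.card ≤ U.card → Adm a b c S V₀ →
            V₀.Nonempty → 0 ≤ ee p c S V₀ → (0 < ee p c S U → 0 < ee p c S V₀) →
            ∃ S' : Finset X, (∀ x ∈ S', a x ∈ S') ∧ (∀ x ∈ S', b x ∈ S') ∧ S ⊂ S' ∧
            S'.card ≤ S.card + 2 * p * U.card ∧ (bdy c S').card ≤ (bdy c S).card ∧
            (0 < ee p c S U → (bdy c S').card + 2 ≤ (bdy c S).card) := by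
          intro V₀ h1 h2 h3 h4 h5 h6
          obtain ⟨S', k1, k2, k3, k4, k5, k6⟩ := ih _ h1 V₀ rfl h3 h4 h5
          exact ⟨S', k1, k2, k3, k4.trans (Nat.add_le_add_left (Nat.mul_le_mul_left _ h2) _), k5,
            fun hp => k6 (h6 hp)⟩
        by_cases hpos : 0 < ee p c S U
        · by_cases h1 : 0 < ee p c S V
          · exact fin V hlt1 hle1 hA1 hV.ne h1.le fun _ => h1
          · have h2 : 0 < ee p c S (U \ V) := by linarith
            exact fin (U \ V) hlt2 hle2 hA2 hne' h2.le fun _ => h2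
        · by_cases h1 : 0 ≤ ee p c S V
          · exact fin V hlt1 hle1 hA1 hV.ne h1 fun h => absurd h hpos
          · have h2 : 0 ≤ ee p c S (U \ V) := by linarith
            exact fin (U \ V) hlt2 hle2 hA2 hne' h2 fun h => absurd h hpos
  exact key U.card U rfl hU hne he

end MPbcd198.U
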