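import Pool.Agent.Lib.MP_bcd198_co.U.Step

/-!
# JOB U/Tr: translation to actions of the triangle group; the vertex closure

`hρ : IsMapHom ρ` gives the six conditions on `ρ (gen 0)`, `ρ (gen 1)`, `ρ (gen 2)`.
* `closed_vSub`: a finset `V` closed under `b = ρ (gen 1)` and `c = ρ (gen 2)` is closed under `ρ g`, `g ∈ vSub` (`Subgroup.closure_induction`; for inverses use that
  `ρ g` is injective on the finite set `V`: `Finset.surjOn_of_injOn_of_card_le`/`Finite`, or induct with the predicate `∀ x, x ∈ V ↔ ρ g x ∈ V`, which is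
  stable under inverses; for the generators: `b (b x) = x`).
* `adm_of`: `hv`: if `V ⊆ U` is nonempty, closed under `b` and `c`, take `x ∈ V`; `x ∈ hat`, so `ρ g x ∈ S` for some `g ∈ vSub`; but `ρ g x ∈ V ⊆ U` is not in `S`.
* `eU_eq`, `bd_eq`: only the decidability instances differ (`Finset.filter_congr_decidable`, `congr`).
* `hat_sub`: let `x ∈ hat ρ S`, `x ∉ S`. There is `y ∈ bd ρ S` with `x ∈ fc b c y`: let `O = fc b c x`. There is `g ∈ vSub` with `ρ g x ∈ S` (and `ρ g x ∈ O`: the map `g ↦ ρ g` sends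
  `vSub = closure {gen 1, gen 2}` into `closure {b, c}`: `Subgroup.map_closure` or closure induction). Suppose every `y ∈ O ∩ S` has `c y ∈ S`. Then
  `{y : y ∈ O → y ∈ S}`... precisely the set `O ∩ S` is closed under `b` and `c`; `ρ g x` is in it and `x` is in its orbit under `⟨b, c⟩`, so `x ∈ S` (closure induction with
  the predicate `y ∈ O ∩ S ↔ g y ∈ O ∩ S`): contradiction.
* `hat_finite`, `hat_card`: `hat ρ S ⊆ S ∪ ⋃ y ∈ bd ρ S, fc b c y` and `|fc b c y| = 2 q` (`fc_ncard` for `b`, `c`, `r = q`).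
* `U_card`: the same for `U ⊆ hat \ S`.
-/

set_option autoImplicit false

namespace MPbcd198.U

open Equiv

variable {p q : ℕ} {X : Type} {ρ : Tri p q →* Perm X} {S U : Finset X}

theorem sys_of (hyp : Hyp p q) (hρ : IsMapHom ρ) :
    Sys p (ρ (gen p q 0)) (ρ (gen p q 1)) (ρ (gen p q 2)) :=
  ⟨hyp.hp, hρ.pa, hρ.pb, hρ.pc, hρ.ab, hρ.ac⟩

private theorem tr_mem_closure {g : Tri p q} (hg : g ∈ vSub p q) :
    ρ g ∈ Subgroup.closure ({ρ (gen p q 1), ρ (gen p q 2)} : Set (Perm X)) := by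
  have h : ρ g ∈ (vSub p q).map ρ := Subgroup.mem_map_of_mem ρ hg
  unfold vSub at h
  rw [MonoidHom.map_closure, Set.image_pair] at h
  exact h

private theorem tr_mem_fc {g : Tri p q} (hg : g ∈ vSub p q) (x : X) :
    ρ g x ∈ fc (ρ (gen p q 1)) (ρ (gen p q 2)) x :=
  ⟨ρ g, tr_mem_closure hg, rfl⟩

theorem closed_vSub (hρ : IsMapHom ρ) {V : Finset X} (hb : ∀ x ∈ V, ρ (gen p q 1) x ∈ V)
    (hc : ∀ x ∈ V, ρ (gen p q 2) x ∈ V) {g : Tri p q} (hg : g ∈ vSub p q) {x : X} (hx : x ∈ V) :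
    ρ g x ∈ V :=
  mem_of_mem_fc hρ.pb hρ.pc hb hc hx (tr_mem_fc hg x)

theorem adm_of (hρ : IsMapHom ρ) (hU : PUClosed ρ S U) :
    Adm (ρ (gen p q 0)) (ρ (gen p q 1)) (ρ (gen p q 2)) S U := by
  obtain ⟨h1, h2, h3⟩ := hU
  refine ⟨fun x hx => (h1 x hx).2, h2, h3, ?_⟩
  intro V hV hne hb
  by_contra hcon
  push Not at hcon
  obtain ⟨x, hx⟩ := hne
  obtain ⟨g, hg, hgS⟩ := (h1 x (hV hx)).1
  exact (h1 _ (hV (closed_vSub hρ hb hcon hg hx))).2 hgS

theorem eU_eq [DecidableEq X] : eU ρ S U = ee p (ρ (gen p q 2)) S U := by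
  unfold eU ee A2 Zu
  congr!

theorem bd_eq [DecidableEq X] : bd ρ S = bdy (ρ (gen p q 2)) S := by
  unfold bd bdy
  congr!

theorem hat_sub (hρ : IsMapHom ρ) (hS : FaceSet ρ S) {x : X} (hx : x ∈ hat ρ S) (hxS : x ∉ S) :
    ∃ y ∈ bd ρ S, x ∈ fc (ρ (gen p q 1)) (ρ (gen p q 2)) y := by
  classical
  by_contra hcon
  push Not at hcon
  obtain ⟨g, hg, hgS⟩ := hx
  set V : Finset X := S.filter fun y => y ∈ fc (ρ (gen p q 1)) (ρ (gen p q 2)) x with hV
  have hbV : ∀ y ∈ V, ρ (gen p q 1) y ∈ V := by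
    intro y hy
    obtain ⟨hyS, hyO⟩ := Finset.mem_filter.1 hy
    refine Finset.mem_filter.2 ⟨(hS y hyS).2, ?_⟩
    rw [← fc_eq_of_mem hyO]
    exact ⟨ρ (gen p q 1), Subgroup.subset_closure (by simp), rfl⟩
  have hcV : ∀ y ∈ V, ρ (gen p q 2) y ∈ V := by
    intro y hy
    obtain ⟨hyS, hyO⟩ := Finset.mem_filter.1 hy
    refine Finset.mem_filter.2 ⟨?_, ?_⟩
    · by_contra hcS
      apply hcon y
      · unfold bd
        exact Finset.mem_filter.2 ⟨hyS, hcS⟩
      · rw [fc_eq_of_mem hyO]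
        exact fc_self x
    · rw [← fc_eq_of_mem hyO]
      exact ⟨ρ (gen p q 2), Subgroup.subset_closure (by simp), rfl⟩
  have hgV : ρ g x ∈ V := Finset.mem_filter.2 ⟨hgS, tr_mem_fc hg x⟩
  have hxV : ρ g⁻¹ (ρ g x) ∈ V := closed_vSub hρ hbV hcV (inv_mem hg) hgV
  have hxx : ρ g⁻¹ (ρ g x) = x := by
    rw [← Perm.mul_apply, ← map_mul]
    simp
  rw [hxx] at hxV
  exact hxS (Finset.mem_filter.1 hxV).1

open Classical in
/-- the orbits of the boundary flags as a finset -/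
private noncomputable def trT (hyp : Hyp p q) (hρ : IsMapHom ρ) (S : Finset X) : Finset X :=
  (bd ρ S).biUnion fun y =>
    (fc_finite (by have := hyp.hq; omega : 1 ≤ q) hρ.pb hρ.pc hρ.bc y).toFinset

private theorem trT_card (hyp : Hyp p q) (hρ : IsMapHom ρ) (S : Finset X) :
    (trT hyp hρ S).card ≤ 2 * q * (bd ρ S).card := by
  classical
  unfold trT
  refine Finset.card_biUnion_le.trans ?_
  rw [mul_comm, ← smul_eq_mul]
  apply Finset.sum_le_card_nsmul
  intro y _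
  have hq1 : 1 ≤ q := by have := hyp.hq; omega
  have h1 := Set.ncard_eq_toFinset_card _ (fc_finite hq1 hρ.pb hρ.pc hρ.bc y)
  have h2 := fc_ncard hq1 hρ.pb hρ.pc hρ.bc y
  exact (h1.symm.trans h2).le

private theorem trT_mem (hyp : Hyp p q) (hρ : IsMapHom ρ) (hS : FaceSet ρ S) {x : X}
    (hx : x ∈ hat ρ S) (hxS : x ∉ S) : x ∈ trT hyp hρ S := by
  classical
  obtain ⟨y, hy, hxy⟩ := hat_sub hρ hS hx hxS
  unfold trT
  rw [Finset.mem_biUnion]
  exact ⟨y, hy, by simpa using hxy⟩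

open Classical in
private theorem hat_subset_tr (hyp : Hyp p q) (hρ : IsMapHom ρ) (hS : FaceSet ρ S) :
    hat ρ S ⊆ ((S ∪ trT hyp hρ S : Finset X) : Set X) := by
  intro x hx
  rw [Finset.mem_coe, Finset.mem_union]
  by_cases hxS : x ∈ S
  · exact Or.inl hxS
  · exact Or.inr (trT_mem hyp hρ hS hx hxS)

theorem hat_finite (hyp : Hyp p q) (hρ : IsMapHom ρ) (hS : FaceSet ρ S) : (hat ρ S).Finite := by
  classical
  exact (Finset.finite_toSet _).subset (hat_subset_tr hyp hρ hS)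

theorem hat_card (hyp : Hyp p q) (hρ : IsMapHom ρ) (hS : FaceSet ρ S) :
    Nat.card (hat ρ S) ≤ S.card + 2 * q * (bd ρ S).card := by
  classical
  have h1 : (hat ρ S).ncard ≤ ((S ∪ trT hyp hρ S : Finset X) : Set X).ncard :=
    Set.ncard_le_ncard (hat_subset_tr hyp hρ hS) (Finset.finite_toSet _)
  rw [Set.ncard_coe_finset] at h1
  have h2 := (h1.trans (Finset.card_union_le S (trT hyp hρ S))).trans
    (Nat.add_le_add_left (trT_card hyp hρ S) S.card)
  exact h2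

theorem U_card (hyp : Hyp p q) (hρ : IsMapHom ρ) (hS : FaceSet ρ S) (hU : PUClosed ρ S U) :
    U.card ≤ 2 * q * (bd ρ S).card := by
  refine (Finset.card_le_card ?_).trans (trT_card hyp hρ S)
  intro x hx
  exact trT_mem hyp hρ hS (hU.1 x hx).1 (hU.1 x hx).2

end MPbcd198.U
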